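import Mathlib

set_option autoImplicit false

namespace Pool.Agent.Helper20.SP

/-- The part of `n` composed of primes of `Q`. -/
def uq (Q : Finset ℕ) (n : ℕ) : ℕ := ∏ p ∈ Q, p ^ n.factorization p

/-- The part of `n` free of primes of `Q`. -/
def bq (Q : Finset ℕ) (n : ℕ) : ℕ := n / uq Q n

variable {Q : Finset ℕ} {n : ℕ}

lemma uq_ne_zero (hQ : ∀ p ∈ Q, p.Prime) (n : ℕ) : uq Q n ≠ 0 := by
  unfold uq
  rw [Finset.prod_ne_zero_iff]
  intro p hp
  exact pow_ne_zero _ (hQ p hp).ne_zero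

lemma uq_factorization (hQ : ∀ p ∈ Q, p.Prime) (n q : ℕ) :
    (uq Q n).factorization q = if q ∈ Q then n.factorization q else 0 := by
  unfold uq
  rw [Nat.factorization_prod (fun p hp => pow_ne_zero _ (hQ p hp).ne_zero)]
  rw [Finset.sum_apply']
  by_cases hq : q ∈ Q
  · rw [if_pos hq, Finset.sum_eq_single q]
    · rw [Nat.Prime.factorization_pow (hQ q hq)]; simp
    · intro p hp hne
      rw [Nat.Prime.factorization_pow (hQ p hp)]
      simp [hne]
    · intro h; exact absurd hq h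
  · rw [if_neg hq]
    apply Finset.sum_eq_zero
    intro p hp
    rw [Nat.Prime.factorization_pow (hQ p hp)]
    have : p ≠ q := fun h => hq (h ▸ hp)
    simp [this]

lemma uq_dvd (hQ : ∀ p ∈ Q, p.Prime) (hn : n ≠ 0) : uq Q n ∣ n := by
  rw [← Nat.factorization_le_iff_dvd (uq_ne_zero hQ n) hn]
  intro q
  rw [uq_factorization hQ]
  split_ifs <;> omega

lemma uq_mul_bq (hQ : ∀ p ∈ Q, p.Prime) (hn : n ≠ 0) : uq Q n * bq Q n = n :=
  Nat.mul_div_cancel' (uq_dvd hQ hn)

lemma bq_ne_zero (hQ : ∀ p ∈ Q, p.Prime) (hn : n ≠ 0) : bq Q n ≠ 0 := by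
  intro h
  apply hn
  rw [← uq_mul_bq hQ hn, h, mul_zero]

lemma bq_factorization (hQ : ∀ p ∈ Q, p.Prime) (hn : n ≠ 0) (q : ℕ) :
    (bq Q n).factorization q = if q ∈ Q then 0 else n.factorization q := by
  have h := congrArg (fun m => m.factorization q) (uq_mul_bq hQ hn)
  rw [Nat.factorization_mul (uq_ne_zero hQ n) (bq_ne_zero hQ hn), Finsupp.add_apply,
    uq_factorization hQ] at h
  split_ifs with hq
  · rw [if_pos hq] at h; omega
  · rw [if_neg hq] at h; omega

lemma not_dvd_bq (hQ : ∀ p ∈ Q, p.Prime) (hn : n ≠ 0) {p : ℕ} (hp : p ∈ Q) : ¬ p ∣ bq Q n := by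
  intro h
  have h1 := (bq_factorization hQ hn p)
  rw [if_pos hp] at h1
  have h2 := (hQ p hp).factorization_pos_of_dvd (bq_ne_zero hQ hn) h
  omega

/-- `n` is determined by its valuations in `Q` and its `Q`-free part. -/
lemma eq_of_parts (hQ : ∀ p ∈ Q, p.Prime) {m : ℕ} (hn : n ≠ 0) (hm : m ≠ 0)
    (h : ∀ p ∈ Q, n.factorization p = m.factorization p) (hb : bq Q n = bq Q m) : n = m := by
  rw [← uq_mul_bq hQ hn, ← uq_mul_bq hQ hm, hb]
  congr 1
  unfold uq
  apply Finset.prod_congr rfl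
  intro p hp
  rw [h p hp]

lemma bq_erase (hQ : ∀ p ∈ Q, p.Prime) (hn : n ≠ 0) {p : ℕ} (hp : p ∈ Q) :
    bq (Q.erase p) n = p ^ n.factorization p * bq Q n := by
  have hQ' : ∀ q ∈ Q.erase p, q.Prime := fun q hq => hQ q (Finset.mem_of_mem_erase hq)
  have h1 := uq_mul_bq hQ hn
  have h2 := uq_mul_bq hQ' hn
  have h3 : uq Q n = p ^ n.factorization p * uq (Q.erase p) n := by
    unfold uq
    rw [Finset.mul_prod_erase Q (fun p => p ^ n.factorization p) hp]
  have h4 : uq (Q.erase p) n * bq (Q.erase p) n =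
      uq (Q.erase p) n * (p ^ n.factorization p * bq Q n) := by
    rw [h2, ← mul_assoc, mul_comm (uq (Q.erase p) n), ← h3, h1]
  exact Nat.eq_of_mul_eq_mul_left (Nat.pos_of_ne_zero (uq_ne_zero hQ' n)) h4

lemma bq_empty (n : ℕ) : bq ∅ n = n := by
  unfold bq uq; simp

/-- The decomposition used for decoding: `n = p^i * c * b`. -/
lemma decomp (hQ : ∀ p ∈ Q, p.Prime) (hn : n ≠ 0) {p : ℕ} (hp : p ∈ Q) :
    n = p ^ n.factorization p * (uq (Q.erase p) n * bq Q n) := by
  have hQ' : ∀ q ∈ Q.erase p, q.Prime := fun q hq => hQ q (Finset.mem_of_mem_erase hq)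
  have h2 := uq_mul_bq hQ' hn
  rw [bq_erase hQ hn hp] at h2
  calc n = uq (Q.erase p) n * (p ^ n.factorization p * bq Q n) := h2.symm
    _ = _ := by ring

lemma not_dvd_uq_erase (hQ : ∀ p ∈ Q, p.Prime) {p : ℕ} (hp : p ∈ Q) :
    ¬ p ∣ uq (Q.erase p) n := by
  have hQ' : ∀ q ∈ Q.erase p, q.Prime := fun q hq => hQ q (Finset.mem_of_mem_erase hq)
  intro h
  have h1 := (hQ p hp).factorization_pos_of_dvd (uq_ne_zero hQ' n) h
  rw [uq_factorization hQ'] at h1
  simp at h1

/-- The valuation of a sum when the valuations differ. -/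
lemma factorization_add_of_lt {p x y : ℕ} (hp : p.Prime) (hx : x ≠ 0) (hy : y ≠ 0)
    (h : x.factorization p < y.factorization p) :
    (x + y).factorization p = x.factorization p := by
  have hs : x + y ≠ 0 := by omega
  apply le_antisymm
  · by_contra hcon
    push Not at hcon
    have h1 : p ^ (x.factorization p + 1) ∣ x + y :=
      (hp.pow_dvd_iff_le_factorization hs).mpr hcon
    have h2 : p ^ (x.factorization p + 1) ∣ y := (hp.pow_dvd_iff_le_factorization hy).mpr h
    have h3 : p ^ (x.factorization p + 1) ∣ x := (Nat.dvd_add_left h2).mp h1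
    have h4 := (hp.pow_dvd_iff_le_factorization hx).mp h3
    omega
  · have h1 : p ^ (x.factorization p) ∣ x := (hp.pow_dvd_iff_le_factorization hx).mpr le_rfl
    have h2 : p ^ (x.factorization p) ∣ y := (hp.pow_dvd_iff_le_factorization hy).mpr h.le
    exact (hp.pow_dvd_iff_le_factorization hs).mp (dvd_add h1 h2)

end Pool.Agent.Helper20.SP
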