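import Mathlib

set_option autoImplicit false

namespace Pool.Agent.Helper20.SP

/-- The number of `x` in `D` with `f x` congruent to `z` modulo `p ^ t`. -/
def W (D : Finset ℕ) (f : ℕ → ℤ) (p : ℕ) (z : ℤ) (t : ℕ) : ℕ :=
  (D.filter (fun x => ((p : ℤ) ^ t) ∣ (f x - z))).card

/-- The class of `z` modulo `p^(t+1)` has at most half of the weight of the class modulo `p^t`. -/
def Light (D : Finset ℕ) (f : ℕ → ℤ) (p : ℕ) (z : ℤ) (t : ℕ) : Prop :=
  2 * W D f p z (t + 1) ≤ W D f p z t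

/-- The class of `z` modulo `p^(t+1)` has at least `1 - 1/Θ` of the weight of the class
modulo `p^t`. -/
def VH (Θ : ℕ) (D : Finset ℕ) (f : ℕ → ℤ) (p : ℕ) (z : ℤ) (t : ℕ) : Prop :=
  Θ * W D f p z t ≤ W D f p z t + Θ * W D f p z (t + 1)

variable {D : Finset ℕ} {f : ℕ → ℤ} {p : ℕ} {z z' z'' : ℤ} {t : ℕ} {Θ : ℕ}

lemma W_le_card : W D f p z t ≤ D.card := Finset.card_filter_le _ _

lemma W_anti_succ : W D f p z (t + 1) ≤ W D f p z t := by
  apply Finset.card_le_card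
  intro x hx
  simp only [Finset.mem_filter] at hx ⊢
  exact ⟨hx.1, (pow_dvd_pow _ (Nat.le_succ t)).trans hx.2⟩

lemma W_anti {s t : ℕ} (h : s ≤ t) : W D f p z t ≤ W D f p z s :=
  antitone_nat_of_succ_le (f := W D f p z) (fun _ => W_anti_succ) h

lemma W_congr (h : (p : ℤ) ^ t ∣ z - z') : W D f p z t = W D f p z' t := by
  unfold W
  congr 1
  apply Finset.filter_congr
  intro x _
  constructor
  · intro hx
    have := dvd_add hx h
    simpa using this
  · intro hx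
    have := dvd_sub hx h
    have e : f x - z' - (z - z') = f x - z := by ring
    rwa [e] at this

lemma W_pos {x : ℕ} (hx : x ∈ D) : 1 ≤ W D f p (f x) t := by
  apply Finset.card_pos.mpr
  exact ⟨x, by simp [hx]⟩

lemma W_disj (h : (p : ℤ) ^ t ∣ z - z') (h' : ¬ (p : ℤ) ^ (t + 1) ∣ z - z') :
    W D f p z (t + 1) + W D f p z' (t + 1) ≤ W D f p z t := by
  unfold W
  rw [← Finset.card_union_of_disjoint]
  · apply Finset.card_le_card
    intro x hx
    simp only [Finset.mem_union, Finset.mem_filter] at hx ⊢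
    rcases hx with hx | hx
    · exact ⟨hx.1, (pow_dvd_pow _ (Nat.le_succ t)).trans hx.2⟩
    · refine ⟨hx.1, ?_⟩
      have h1 := (pow_dvd_pow (p : ℤ) (Nat.le_succ t)).trans hx.2
      have h2 := dvd_sub h1 h
      have e : f x - z' - (z - z') = f x - z := by ring
      rwa [e] at h2
  · rw [Finset.disjoint_left]
    intro x hx hx'
    simp only [Finset.mem_filter] at hx hx'
    apply h'
    have := dvd_sub hx'.2 hx.2
    have e : f x - z' - (f x - z) = z - z' := by ring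
    rwa [e] at this

lemma W_disj3 (h : (p : ℤ) ^ t ∣ z - z') (h' : ¬ (p : ℤ) ^ (t + 1) ∣ z - z')
    (k : (p : ℤ) ^ t ∣ z - z'') (k' : ¬ (p : ℤ) ^ (t + 1) ∣ z - z'')
    (j' : ¬ (p : ℤ) ^ (t + 1) ∣ z' - z'') :
    W D f p z (t + 1) + W D f p z' (t + 1) + W D f p z'' (t + 1) ≤ W D f p z t := by
  unfold W
  have hd1 : Disjoint (D.filter (fun x => ((p : ℤ) ^ (t+1)) ∣ (f x - z)))
      (D.filter (fun x => ((p : ℤ) ^ (t+1)) ∣ (f x - z'))) := by
    rw [Finset.disjoint_left]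
    intro x hx hx'
    simp only [Finset.mem_filter] at hx hx'
    apply h'
    have := dvd_sub hx'.2 hx.2
    have e : f x - z' - (f x - z) = z - z' := by ring
    rwa [e] at this
  rw [← Finset.card_union_of_disjoint hd1, ← Finset.card_union_of_disjoint]
  · apply Finset.card_le_card
    intro x hx
    simp only [Finset.mem_union, Finset.mem_filter] at hx ⊢
    rcases hx with (hx | hx) | hx
    · exact ⟨hx.1, (pow_dvd_pow _ (Nat.le_succ t)).trans hx.2⟩
    · refine ⟨hx.1, ?_⟩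
      have h1 := (pow_dvd_pow (p : ℤ) (Nat.le_succ t)).trans hx.2
      have h2 := dvd_sub h1 h
      have e : f x - z' - (z - z') = f x - z := by ring
      rwa [e] at h2
    · refine ⟨hx.1, ?_⟩
      have h1 := (pow_dvd_pow (p : ℤ) (Nat.le_succ t)).trans hx.2
      have h2 := dvd_sub h1 k
      have e : f x - z'' - (z - z'') = f x - z := by ring
      rwa [e] at h2
  · rw [Finset.disjoint_left]
    intro x hx hx'
    simp only [Finset.mem_union, Finset.mem_filter] at hx hx'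
    rcases hx with hx | hx
    · apply k'
      have := dvd_sub hx'.2 hx.2
      have e : f x - z'' - (f x - z) = z - z'' := by ring
      rwa [e] at this
    · apply j'
      have := dvd_sub hx'.2 hx.2
      have e : f x - z'' - (f x - z') = z' - z'' := by ring
      rwa [e] at this

/-- The compatibility condition on a pair of classes. -/
def Compat (Θ : ℕ) (D : Finset ℕ) (f : ℕ → ℤ) (p : ℕ) (l : ℕ) (z z' : ℤ) : Prop :=
  ∀ τ : ℕ, (Light D f p z' τ → VH Θ D f p z (l + τ)) ∧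
    (Light D f p z (l + τ) → VH Θ D f p z' τ)

/-- Two solutions of `c z + p^l c' z' = s` that agree exactly to a level. -/
lemma level_shift (hp : p.Prime) {c c' s : ℤ} (hc : ¬ (p : ℤ) ∣ c) (hc' : ¬ (p : ℤ) ∣ c')
    {l τ : ℕ} {a a' b b' : ℤ}
    (ha : c * a + p ^ l * c' * a' = s) (hb : c * b + p ^ l * c' * b' = s) :
    (p : ℤ) ^ τ ∣ a' - b' ↔ (p : ℤ) ^ (l + τ) ∣ a - b := by
  have hpp : Prime (p : ℤ) := Nat.prime_iff_prime_int.mp hp
  have hp0 : (p : ℤ) ≠ 0 := hpp.ne_zero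
  have e : c * (a - b) = p ^ l * (c' * (b' - a')) := by
    have : c * a + p ^ l * c' * a' = c * b + p ^ l * c' * b' := by rw [ha, hb]
    linear_combination this
  constructor
  · intro h
    have h1 : (p : ℤ) ^ (l + τ) ∣ c * (a - b) := by
      rw [e, pow_add]
      apply mul_dvd_mul_left
      apply Dvd.dvd.mul_left
      rw [← neg_sub]
      exact (dvd_neg).mpr h
    exact hpp.pow_dvd_of_dvd_mul_left _ hc h1
  · intro h
    have h1 : (p : ℤ) ^ (l + τ) ∣ p ^ l * (c' * (b' - a')) := by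
      rw [← e]; exact Dvd.dvd.mul_left h c
    rw [pow_add] at h1
    have h2 : (p : ℤ) ^ τ ∣ c' * (b' - a') := (mul_dvd_mul_iff_left (pow_ne_zero l hp0)).mp h1
    have h3 := hpp.pow_dvd_of_dvd_mul_left _ hc' h2
    rw [← neg_sub]
    exact (dvd_neg).mpr h3

/-- One branching costs a factor `Θ`. -/
lemma branch (hp : p.Prime) {c c' s : ℤ} (hc : ¬ (p : ℤ) ∣ c) (hc' : ¬ (p : ℤ) ∣ c')
    (hΘ : 2 ≤ Θ) {l τ : ℕ} {a a' b b' : ℤ}
    (ha : c * a + p ^ l * c' * a' = s) (hb : c * b + p ^ l * c' * b' = s)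
    (hGa : Compat Θ D f p l a a') (hGb : Compat Θ D f p l b b')
    (h : (p : ℤ) ^ τ ∣ a' - b') (h' : ¬ (p : ℤ) ^ (τ + 1) ∣ a' - b') :
    Θ * (W D f p a (l + (τ + 1)) * W D f p a' (τ + 1)) ≤
      W D f p a (l + τ) * W D f p a' τ := by
  have k := (level_shift hp hc hc' (τ := τ) ha hb).mp h
  have k' : ¬ (p : ℤ) ^ (l + τ + 1) ∣ a - b := fun hk =>
    h' ((level_shift hp hc hc' (τ := τ + 1) ha hb).mpr hk)
  have d1 := W_disj (D := D) (f := f) k k'
  have d2 := W_disj (D := D) (f := f) h h'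
  have c1 := W_congr (D := D) (f := f) k
  have c2 := W_congr (D := D) (f := f) h
  have ea : l + (τ + 1) = l + τ + 1 := by ring
  rw [ea]
  by_cases hlb : Light D f p b (l + τ)
  · -- b light at l+τ, so b' is very heavy at τ
    have hv := (hGb τ).2 hlb
    unfold VH at hv
    -- Θ * W' ≤ W' + Θ * W(b',τ+1), W(a')+W(b') ≤ W'
    have h1 : Θ * W D f p a' (τ + 1) ≤ W D f p a' τ := by
      have h2 : Θ * (W D f p a' (τ + 1) + W D f p b' (τ + 1)) ≤ Θ * W D f p a' τ :=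
        Nat.mul_le_mul_left _ d2
      rw [mul_add] at h2
      rw [← c2] at hv
      omega
    calc Θ * (W D f p a (l + τ + 1) * W D f p a' (τ + 1))
        = W D f p a (l + τ + 1) * (Θ * W D f p a' (τ + 1)) := by ring
      _ ≤ W D f p a (l + τ) * W D f p a' τ := Nat.mul_le_mul W_anti_succ h1
  · -- b not light, so a is light
    have hla : Light D f p a (l + τ) := by
      unfold Light at hlb ⊢
      rw [← c1] at hlb
      omega
    have hv := (hGa τ).2 hla
    unfold VH at hv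
    -- a' is very heavy so b' is light
    have h1 : Θ * W D f p b' (τ + 1) ≤ W D f p a' τ := by
      have h2 : Θ * (W D f p a' (τ + 1) + W D f p b' (τ + 1)) ≤ Θ * W D f p a' τ :=
        Nat.mul_le_mul_left _ d2
      rw [mul_add] at h2
      omega
    have hlb' : Light D f p b' τ := by
      unfold Light
      rw [← c2]
      calc 2 * W D f p b' (τ + 1) ≤ Θ * W D f p b' (τ + 1) := Nat.mul_le_mul_right _ hΘ
        _ ≤ _ := h1
    have hv2 := (hGb τ).1 hlb'
    unfold VH at hv2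
    have h3 : Θ * W D f p a (l + τ + 1) ≤ W D f p a (l + τ) := by
      have h2 : Θ * (W D f p a (l + τ + 1) + W D f p b (l + τ + 1)) ≤ Θ * W D f p a (l + τ) :=
        Nat.mul_le_mul_left _ d1
      rw [mul_add] at h2
      rw [← c1] at hv2
      omega
    calc Θ * (W D f p a (l + τ + 1) * W D f p a' (τ + 1))
        = (Θ * W D f p a (l + τ + 1)) * W D f p a' (τ + 1) := by ring
      _ ≤ W D f p a (l + τ) * W D f p a' τ := Nat.mul_le_mul h3 W_anti_succ

/-- No three-way branching. -/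
lemma no_three (hp : p.Prime) {c c' s : ℤ} (hc : ¬ (p : ℤ) ∣ c) (hc' : ¬ (p : ℤ) ∣ c')
    (hΘ : 2 ≤ Θ) {l τ : ℕ} {a a' b b' d d' : ℤ}
    (ha : c * a + p ^ l * c' * a' = s) (hb : c * b + p ^ l * c' * b' = s)
    (hd : c * d + p ^ l * c' * d' = s)
    (hGa : Compat Θ D f p l a a') (hGb : Compat Θ D f p l b b') (hGd : Compat Θ D f p l d d')
    (pa : 1 ≤ W D f p a' (τ + 1)) (pb : 1 ≤ W D f p b' (τ + 1)) (pd : 1 ≤ W D f p d' (τ + 1))
    (h : (p : ℤ) ^ τ ∣ a' - b') (h' : ¬ (p : ℤ) ^ (τ + 1) ∣ a' - b')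
    (k : (p : ℤ) ^ τ ∣ a' - d') (k' : ¬ (p : ℤ) ^ (τ + 1) ∣ a' - d')
    (j' : ¬ (p : ℤ) ^ (τ + 1) ∣ b' - d') : False := by
  have j : (p : ℤ) ^ τ ∣ b' - d' := by
    have := dvd_sub k h
    have e : a' - d' - (a' - b') = b' - d' := by ring
    rwa [e] at this
  have sab := (level_shift hp hc hc' (τ := τ) ha hb).mp h
  have sad := (level_shift hp hc hc' (τ := τ) ha hd).mp k
  have sbd := (level_shift hp hc hc' (τ := τ) hb hd).mp j
  have sab' : ¬ (p : ℤ) ^ (l + τ + 1) ∣ a - b := fun hk =>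
    h' ((level_shift hp hc hc' (τ := τ + 1) ha hb).mpr hk)
  have sad' : ¬ (p : ℤ) ^ (l + τ + 1) ∣ a - d := fun hk =>
    k' ((level_shift hp hc hc' (τ := τ + 1) ha hd).mpr hk)
  have sbd' : ¬ (p : ℤ) ^ (l + τ + 1) ∣ b - d := fun hk =>
    j' ((level_shift hp hc hc' (τ := τ + 1) hb hd).mpr hk)
  have d3 := W_disj3 (D := D) (f := f) h h' k k' j'
  have cab := W_congr (D := D) (f := f) h
  have cad := W_congr (D := D) (f := f) k
  have dab := W_disj (D := D) (f := f) sab sab'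
  have dad := W_disj (D := D) (f := f) sad sad'
  have dbd := W_disj (D := D) (f := f) sbd sbd'
  have eab := W_congr (D := D) (f := f) sab
  have ead := W_congr (D := D) (f := f) sad
  -- a generic contradiction from two of them being light
  have key : ∀ {X Y : ℕ} (w : ℕ), 1 ≤ w → X + Y + w ≤ W D f p a' τ →
      Θ * W D f p a' τ ≤ W D f p a' τ + Θ * X →
      Θ * W D f p a' τ ≤ W D f p a' τ + Θ * Y → False := by
    intro X Y w hw h1 h2 h3
    have h4 : Θ * (X + Y + w) ≤ Θ * W D f p a' τ := Nat.mul_le_mul_left _ h1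
    have h5 : 2 * W D f p a' τ ≤ Θ * W D f p a' τ := Nat.mul_le_mul_right _ hΘ
    have h6 : Θ * 1 ≤ Θ * w := Nat.mul_le_mul_left _ hw
    rw [mul_add, mul_add] at h4
    omega
  by_cases la : Light D f p a (l + τ)
  · have va := (hGa τ).2 la
    unfold VH at va
    by_cases lb : Light D f p b (l + τ)
    · have vb := (hGb τ).2 lb
      unfold VH at vb
      rw [← cab] at vb
      exact key _ pd d3 va vb
    · have ld : Light D f p d (l + τ) := by
        unfold Light at lb ⊢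
        rw [← ead]
        rw [← eab] at lb dbd
        omega
      have vd := (hGd τ).2 ld
      unfold VH at vd
      rw [← cad] at vd
      exact key (X := W D f p a' (τ + 1)) (Y := W D f p d' (τ + 1)) _ pb (by omega) va vd
  · have lb : Light D f p b (l + τ) := by
      unfold Light at la ⊢
      rw [← eab]
      omega
    have ld : Light D f p d (l + τ) := by
      unfold Light at la ⊢
      rw [← ead]
      omega
    have vb := (hGb τ).2 lb
    have vd := (hGd τ).2 ld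
    unfold VH at vb vd
    rw [← cab] at vb
    rw [← cad] at vd
    exact key (X := W D f p b' (τ + 1)) (Y := W D f p d' (τ + 1)) _ pa (by omega) vb vd

/-- A nonzero integer is not divisible by all powers of `p`. -/
lemma exists_not_dvd (hp : p.Prime) {x : ℤ} (hx : x ≠ 0) : ∃ n : ℕ, ¬ (p : ℤ) ^ n ∣ x := by
  refine ⟨x.natAbs, fun h => ?_⟩
  have h1 : p ^ x.natAbs ∣ x.natAbs := by
    have := Int.natAbs_dvd_natAbs.mpr h
    simpa [Int.natAbs_pow] using this
  have h2 := Nat.le_of_dvd (Int.natAbs_pos.mpr hx) h1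
  have h3 := Nat.lt_pow_self hp.one_lt (n := x.natAbs)
  omega

/-- First level where a set of pairs is split. -/
lemma split_level (hp : p.Prime) {S : Finset (ℤ × ℤ)} {τ : ℕ}
    (hcong : ∀ σ ∈ S, ∀ ρ ∈ S, (p : ℤ) ^ τ ∣ σ.2 - ρ.2)
    (hne : ∃ σ ∈ S, ∃ ρ ∈ S, σ.2 ≠ ρ.2) :
    ∃ τ', τ ≤ τ' ∧ (∀ σ ∈ S, ∀ ρ ∈ S, (p : ℤ) ^ τ' ∣ σ.2 - ρ.2) ∧
      ∃ σ ∈ S, ∃ ρ ∈ S, ¬ (p : ℤ) ^ (τ' + 1) ∣ σ.2 - ρ.2 := by
  by_contra hcon
  push Not at hcon
  have hall : ∀ n, τ ≤ n → ∀ σ ∈ S, ∀ ρ ∈ S, (p : ℤ) ^ n ∣ σ.2 - ρ.2 := by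
    intro n hn
    induction n, hn using Nat.le_induction with
    | base => exact hcong
    | succ n hn ih => exact hcon n hn ih
  obtain ⟨σ, hσ, ρ, hρ, hne⟩ := hne
  obtain ⟨n, hn⟩ := exists_not_dvd hp (sub_ne_zero.mpr hne)
  apply hn
  rcases le_total τ n with h | h
  · exact hall n h σ hσ ρ hρ
  · exact (pow_dvd_pow _ h).trans (hall τ le_rfl σ hσ ρ hρ)

/-- The decode lemma. -/
lemma decode (hp : p.Prime) {c c' s : ℤ} (hc : ¬ (p : ℤ) ∣ c) (hc' : ¬ (p : ℤ) ∣ c')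
    (hΘ : 2 ≤ Θ) (l : ℕ) (J : ℕ) : ∀ (S : Finset (ℤ × ℤ)) (τ : ℕ),
    (∀ σ ∈ S, (∃ x ∈ D, f x = σ.1) ∧ (∃ x ∈ D, f x = σ.2) ∧
      c * σ.1 + p ^ l * c' * σ.2 = s ∧ Compat Θ D f p l σ.1 σ.2) →
    (∀ σ ∈ S, ∀ ρ ∈ S, (p : ℤ) ^ τ ∣ σ.2 - ρ.2) →
    (∀ σ ∈ S, W D f p σ.1 (l + τ) * W D f p σ.2 τ < Θ ^ (J + 1)) →
    S.card ≤ 2 ^ J := by
  have hpp : Prime (p : ℤ) := Nat.prime_iff_prime_int.mp hp
  have hp0 : (p : ℤ) ≠ 0 := hpp.ne_zero
  have hcne : c ≠ 0 := fun h => hc (by rw [h]; exact dvd_zero _)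
  have hc'ne : c' ≠ 0 := fun h => hc' (by rw [h]; exact dvd_zero _)
  -- two solutions with the same second coordinate are equal
  have inj : ∀ σ ρ : ℤ × ℤ, c * σ.1 + p ^ l * c' * σ.2 = s → c * ρ.1 + p ^ l * c' * ρ.2 = s →
      σ.2 = ρ.2 → σ = ρ := by
    intro σ ρ h1 h2 h3
    have h4 : c * σ.1 = c * ρ.1 := by
      rw [h3] at h1; linear_combination h1 - h2
    have h5 := mul_left_cancel₀ hcne h4
    exact Prod.ext h5 h3
  -- the key drop of the potential
  have drop : ∀ (S : Finset (ℤ × ℤ)) (τ J : ℕ),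
    (∀ σ ∈ S, (∃ x ∈ D, f x = σ.1) ∧ (∃ x ∈ D, f x = σ.2) ∧
      c * σ.1 + p ^ l * c' * σ.2 = s ∧ Compat Θ D f p l σ.1 σ.2) →
    (∀ σ ∈ S, W D f p σ.1 (l + τ) * W D f p σ.2 τ < Θ ^ (J + 1)) →
    ∀ τ', τ ≤ τ' → ∀ σ ∈ S, ∀ ρ ∈ S, (p : ℤ) ^ τ' ∣ σ.2 - ρ.2 →
      ¬ (p : ℤ) ^ (τ' + 1) ∣ σ.2 - ρ.2 →
      W D f p σ.1 (l + (τ' + 1)) * W D f p σ.2 (τ' + 1) < Θ ^ J := by
    intro S τ J hS hpot τ' hτ σ hσ ρ hρ h1 h2
    obtain ⟨_, _, eσ, Gσ⟩ := hS σ hσ
    obtain ⟨_, _, eρ, Gρ⟩ := hS ρ hρ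
    have hb := branch (D := D) (f := f) hp hc hc' hΘ eσ eρ Gσ Gρ h1 h2
    have hmono : W D f p σ.1 (l + τ') * W D f p σ.2 τ' ≤ W D f p σ.1 (l + τ) * W D f p σ.2 τ :=
      Nat.mul_le_mul (W_anti (by omega)) (W_anti hτ)
    have h3 : Θ * (W D f p σ.1 (l + (τ' + 1)) * W D f p σ.2 (τ' + 1)) < Θ * Θ ^ J := by
      calc _ ≤ _ := hb
        _ ≤ _ := hmono
        _ < Θ ^ (J + 1) := hpot σ hσ
        _ = Θ * Θ ^ J := by ring
    exact Nat.lt_of_mul_lt_mul_left h3
  induction J with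
  | zero =>
    intro S τ hS hcong hpot
    by_contra hcon
    push Not at hcon
    rw [pow_zero] at hcon
    obtain ⟨σ, hσ, ρ, hρ, hne⟩ := Finset.one_lt_card.mp hcon
    have hne2 : σ.2 ≠ ρ.2 := fun h => hne (inj σ ρ (hS σ hσ).2.2.1 (hS ρ hρ).2.2.1 h)
    obtain ⟨τ', hτ, hall, σ1, h1, ρ1, h2, h3⟩ := split_level hp hcong ⟨σ, hσ, ρ, hρ, hne2⟩
    have h4 := drop S τ 0 hS hpot τ' hτ σ1 h1 ρ1 h2 (hall σ1 h1 ρ1 h2) h3
    rw [pow_zero] at h4
    obtain ⟨⟨x, hx, hx'⟩, ⟨y, hy, hy'⟩, _⟩ := hS σ1 h1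
    have w1 : 1 ≤ W D f p σ1.1 (l + (τ' + 1)) := by rw [← hx']; exact W_pos hx
    have w2 : 1 ≤ W D f p σ1.2 (τ' + 1) := by rw [← hy']; exact W_pos hy
    have := Nat.mul_le_mul w1 w2
    omega
  | succ J ih =>
    intro S τ hS hcong hpot
    by_cases hcon : S.card ≤ 1
    · exact hcon.trans Nat.one_le_two_pow
    push Not at hcon
    obtain ⟨σ, hσ, ρ, hρ, hne⟩ := Finset.one_lt_card.mp hcon
    have hne2 : σ.2 ≠ ρ.2 := fun h => hne (inj σ ρ (hS σ hσ).2.2.1 (hS ρ hρ).2.2.1 h)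
    obtain ⟨τ', hτ, hall, σ1, h1, ρ1, h2, h3⟩ := split_level hp hcong ⟨σ, hσ, ρ, hρ, hne2⟩
    have posW : ∀ υ ∈ S, 1 ≤ W D f p υ.2 (τ' + 1) := by
      intro υ hυ
      obtain ⟨_, ⟨y, hy, hy'⟩, _⟩ := hS υ hυ
      rw [← hy']; exact W_pos hy
    -- every element is congruent to one of the two
    have hcover : ∀ υ ∈ S, (p : ℤ) ^ (τ' + 1) ∣ υ.2 - σ1.2 ∨ (p : ℤ) ^ (τ' + 1) ∣ υ.2 - ρ1.2 := by
      intro υ hυ
      by_contra hno
      push Not at hno
      obtain ⟨n1, n2⟩ := hno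
      obtain ⟨_, _, eσ, Gσ⟩ := hS σ1 h1
      obtain ⟨_, _, eρ, Gρ⟩ := hS ρ1 h2
      obtain ⟨_, _, eυ, Gυ⟩ := hS υ hυ
      exact no_three (D := D) (f := f) hp hc hc' hΘ eυ eσ eρ Gυ Gσ Gρ (posW υ hυ) (posW σ1 h1)
        (posW ρ1 h2) (hall υ hυ σ1 h1) n1 (hall υ hυ ρ1 h2) n2 h3
    classical
    have hS1 : (S.filter (fun υ => (p : ℤ) ^ (τ' + 1) ∣ υ.2 - σ1.2)).card ≤ 2 ^ J := by
      apply ih _ (τ' + 1)
      · intro υ hυ
        exact hS υ (Finset.mem_filter.mp hυ).1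
      · intro υ hυ ω hω
        have e1 := (Finset.mem_filter.mp hυ).2
        have e2 := (Finset.mem_filter.mp hω).2
        have := dvd_sub e1 e2
        have e : υ.2 - σ1.2 - (ω.2 - σ1.2) = υ.2 - ω.2 := by ring
        rwa [e] at this
      · intro υ hυ
        obtain ⟨hυS, e1⟩ := Finset.mem_filter.mp hυ
        apply drop S τ (J + 1) hS hpot τ' hτ υ hυS ρ1 h2 (hall υ hυS ρ1 h2)
        intro hbad
        apply h3
        have := dvd_sub hbad e1
        have e : υ.2 - ρ1.2 - (υ.2 - σ1.2) = σ1.2 - ρ1.2 := by ring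
        rwa [e] at this
    have hS2 : (S.filter (fun υ => (p : ℤ) ^ (τ' + 1) ∣ υ.2 - ρ1.2)).card ≤ 2 ^ J := by
      apply ih _ (τ' + 1)
      · intro υ hυ
        exact hS υ (Finset.mem_filter.mp hυ).1
      · intro υ hυ ω hω
        have e1 := (Finset.mem_filter.mp hυ).2
        have e2 := (Finset.mem_filter.mp hω).2
        have := dvd_sub e1 e2
        have e : υ.2 - ρ1.2 - (ω.2 - ρ1.2) = υ.2 - ω.2 := by ring
        rwa [e] at this
      · intro υ hυ
        obtain ⟨hυS, e1⟩ := Finset.mem_filter.mp hυ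
        apply drop S τ (J + 1) hS hpot τ' hτ υ hυS σ1 h1 (hall υ hυS σ1 h1)
        intro hbad
        apply h3
        have := dvd_sub e1 hbad
        have e : υ.2 - ρ1.2 - (υ.2 - σ1.2) = σ1.2 - ρ1.2 := by ring
        rwa [e] at this
    have hsub : S ⊆ S.filter (fun υ => (p : ℤ) ^ (τ' + 1) ∣ υ.2 - σ1.2) ∪
        S.filter (fun υ => (p : ℤ) ^ (τ' + 1) ∣ υ.2 - ρ1.2) := by
      intro υ hυ
      rw [Finset.mem_union, Finset.mem_filter, Finset.mem_filter]
      rcases hcover υ hυ with h | h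
      · exact Or.inl ⟨hυ, h⟩
      · exact Or.inr ⟨hυ, h⟩
    calc S.card ≤ _ := Finset.card_le_card hsub
      _ ≤ _ := Finset.card_union_le _ _
      _ ≤ 2 ^ J + 2 ^ J := Nat.add_le_add hS1 hS2
      _ = 2 ^ (J + 1) := by ring

/-- Growth along a set of levels. -/
lemma chain_bound {w : ℕ → ℕ} (hw : ∀ n, w (n + 1) ≤ w n) {a b : ℕ} :
    ∀ (n : ℕ) (T : Finset ℕ), (∀ t ∈ T, t < n ∧ a * w (t + 1) ≤ b * w t) →
      a ^ T.card * w n ≤ b ^ T.card * w 0 := by
  intro n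
  induction n with
  | zero =>
    intro T hT
    have : T = ∅ := by
      rw [Finset.eq_empty_iff_forall_notMem]
      intro t ht
      exact absurd (hT t ht).1 (Nat.not_lt_zero t)
    subst this
    simp
  | succ n ih =>
    intro T hT
    by_cases hn : n ∈ T
    · have h1 := ih (T.erase n) (by
        intro t ht
        have := hT t (Finset.mem_of_mem_erase ht)
        refine ⟨?_, this.2⟩
        have hne := Finset.ne_of_mem_erase ht
        omega)
      have h2 : T.card = (T.erase n).card + 1 := (Finset.card_erase_add_one hn).symm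
      rw [h2, pow_succ, pow_succ]
      have h3 := (hT n hn).2
      calc a ^ (T.erase n).card * a * w (n + 1) = a ^ (T.erase n).card * (a * w (n + 1)) := by ring
        _ ≤ a ^ (T.erase n).card * (b * w n) := Nat.mul_le_mul_left _ h3
        _ = b * (a ^ (T.erase n).card * w n) := by ring
        _ ≤ b * (b ^ (T.erase n).card * w 0) := Nat.mul_le_mul_left _ h1
        _ = _ := by ring
    · have h1 := ih T (by
        intro t ht
        have := hT t ht
        refine ⟨?_, this.2⟩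
        have hne : t ≠ n := fun h => hn (h ▸ ht)
        omega)
      calc a ^ T.card * w (n + 1) ≤ a ^ T.card * w n := Nat.mul_le_mul_left _ (hw n)
        _ ≤ _ := h1

/-- Number of start levels. -/
lemma start_levels (hΘ : 2 ≤ Θ) {J : ℕ} (hJ : D.card < Θ ^ (J + 1)) (s : ℤ) (I : Finset ℕ)
    (hI : ∀ i ∈ I, ∃ x ∈ D, (p : ℤ) ^ i ∣ (x : ℤ) - s ∧ ¬ (p : ℤ) ^ (i + 1) ∣ (x : ℤ) - s ∧
      VH Θ D (fun n => (n : ℤ)) p (x : ℤ) i) : I.card ≤ J + 1 := by
  classical
  by_contra hcon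
  push Not at hcon
  have hne : I.Nonempty := Finset.card_pos.mp (by omega)
  set n := I.max' hne with hn
  have hnI : n ∈ I := Finset.max'_mem I hne
  -- each start level costs Θ
  have hstep : ∀ i ∈ I, Θ * W D (fun n => (n : ℤ)) p s (i + 1) ≤
      1 * W D (fun n => (n : ℤ)) p s i := by
    intro i hi
    obtain ⟨x, hx, h1, h2, h3⟩ := hI i hi
    have d := W_disj (D := D) (f := fun n => (n : ℤ)) h1 h2
    have e := W_congr (D := D) (f := fun n => (n : ℤ)) h1
    unfold VH at h3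
    have h4 := Nat.mul_le_mul_left Θ d
    rw [mul_add] at h4
    rw [one_mul]
    omega
  have hpos : 1 ≤ W D (fun n => (n : ℤ)) p s n := by
    obtain ⟨x, hx, h1, _, _⟩ := hI n hnI
    rw [← W_congr (D := D) (f := fun n => (n : ℤ)) h1]
    exact W_pos (f := fun n => (n : ℤ)) hx
  have hb := chain_bound (w := W D (fun n => (n : ℤ)) p s) (fun n => W_anti_succ)
    (a := Θ) (b := 1) n (I.erase n) (by
      intro t ht
      have h1 := Finset.mem_of_mem_erase ht
      have h2 := Finset.ne_of_mem_erase ht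
      have h3 := Finset.le_max' I t h1
      exact ⟨by omega, hstep t h1⟩)
  rw [one_pow, one_mul] at hb
  have h5 : (I.erase n).card = I.card - 1 := Finset.card_erase_of_mem hnI
  have h6 : Θ ^ (J + 1) ≤ Θ ^ (I.erase n).card := Nat.pow_le_pow_right (by omega) (by omega)
  have h7 : Θ ^ (I.erase n).card * 1 ≤ Θ ^ (I.erase n).card * W D (fun n => (n : ℤ)) p s n :=
    Nat.mul_le_mul_left _ hpos
  have h8 : W D (fun n => (n : ℤ)) p s 0 ≤ D.card := W_le_card
  omega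

/-- Number of light levels. -/
lemma light_levels {x : ℕ} (hx : x ∈ D) (T : Finset ℕ) (hT : ∀ t ∈ T, Light D f p (f x) t) :
    (T.card : ℝ) ≤ 2 * Real.log D.card := by
  have hb := chain_bound (w := W D f p (f x)) (fun n => W_anti_succ)
    (a := 2) (b := 1) (T.sup id + 1) T (by
      intro t ht
      have h1 : t ≤ T.sup id := Finset.le_sup (f := id) ht
      refine ⟨by omega, ?_⟩
      rw [one_mul]
      exact hT t ht)
  rw [one_pow, one_mul] at hb
  have h1 : 1 ≤ W D f p (f x) (T.sup id + 1) := W_pos hx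
  have h2 : W D f p (f x) 0 ≤ D.card := W_le_card
  have h3 : 2 ^ T.card ≤ D.card := by
    calc 2 ^ T.card = 2 ^ T.card * 1 := by ring
      _ ≤ 2 ^ T.card * W D f p (f x) (T.sup id + 1) := Nat.mul_le_mul_left _ h1
      _ ≤ _ := hb
      _ ≤ _ := h2
  have h4 : (2 : ℝ) ^ T.card ≤ D.card := by exact_mod_cast h3
  have h5 := Real.log_le_log (by positivity) h4
  rw [Real.log_pow] at h5
  have h6 : (0.5 : ℝ) ≤ Real.log 2 := by
    have := Real.log_two_gt_d9
    linarith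
  have h7 : (0 : ℝ) ≤ T.card := Nat.cast_nonneg _
  nlinarith

/-- Number of levels that are not very heavy. -/
lemma notVH_levels (hΘ : 2 ≤ Θ) {x : ℕ} (hx : x ∈ D) (T : Finset ℕ)
    (hT : ∀ t ∈ T, ¬ VH Θ D f p (f x) t) :
    (T.card : ℝ) ≤ Θ * Real.log D.card := by
  have hb := chain_bound (w := W D f p (f x)) (fun n => W_anti_succ)
    (a := Θ) (b := Θ - 1) (T.sup id + 1) T (by
      intro t ht
      have h1 : t ≤ T.sup id := Finset.le_sup (f := id) ht
      refine ⟨by omega, ?_⟩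
      have h2 := hT t ht
      unfold VH at h2
      push Not at h2
      have h3 : (Θ - 1) * W D f p (f x) t = Θ * W D f p (f x) t - W D f p (f x) t := by
        rw [Nat.sub_mul, one_mul]
      omega)
  have h1 : 1 ≤ W D f p (f x) (T.sup id + 1) := W_pos hx
  have h2 : W D f p (f x) 0 ≤ D.card := W_le_card
  have h3 : Θ ^ T.card ≤ (Θ - 1) ^ T.card * D.card := by
    calc Θ ^ T.card = Θ ^ T.card * 1 := by ring
      _ ≤ Θ ^ T.card * W D f p (f x) (T.sup id + 1) := Nat.mul_le_mul_left _ h1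
      _ ≤ _ := hb
      _ ≤ _ := Nat.mul_le_mul_left _ h2
  have hDpos : (0 : ℝ) < D.card := by
    have : 0 < D.card := Finset.card_pos.mpr ⟨x, hx⟩
    exact_mod_cast this
  have hΘR : (2 : ℝ) ≤ Θ := by exact_mod_cast hΘ
  have h4 : (Θ : ℝ) ^ T.card ≤ ((Θ : ℝ) - 1) ^ T.card * D.card := by
    have : ((Θ - 1 : ℕ) : ℝ) = (Θ : ℝ) - 1 := by
      rw [Nat.cast_sub (by omega)]; simp
    rw [← this]
    exact_mod_cast h3
  have h5 := Real.log_le_log (by positivity) h4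
  rw [Real.log_mul (by apply pow_ne_zero; linarith) hDpos.ne', Real.log_pow, Real.log_pow] at h5
  -- log (Θ/(Θ-1)) ≥ 1/Θ
  have h6 : Real.log ((Θ : ℝ) - 1) ≤ Real.log Θ - 1 / Θ := by
    have h7 : (Θ : ℝ) - 1 = Θ * (1 - 1 / Θ) := by field_simp
    have h8 : (0 : ℝ) < 1 - 1 / Θ := by
      have : (1 : ℝ) / Θ ≤ 1 / 2 := by
        apply one_div_le_one_div_of_le (by norm_num) hΘR
      linarith
    rw [h7, Real.log_mul (by linarith) h8.ne']
    have := Real.log_le_sub_one_of_pos h8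
    linarith
  have h7 : (0 : ℝ) ≤ T.card := Nat.cast_nonneg _
  have h8 : (T.card : ℝ) * (1 / Θ) ≤ Real.log D.card := by nlinarith
  have h9 : (0 : ℝ) < Θ := by linarith
  rw [mul_one_div, div_le_iff₀ h9] at h8
  linarith

end Pool.Agent.Helper20.SP
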