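import Mathlib
import Pool.Agent.Helper20.SP.Tree
import Pool.Agent.Helper20.SP.Parts

set_option autoImplicit false

namespace Pool.Agent.Helper20.SP

/-- Good pairs. -/
structure Good (Θ : ℕ) (D Q : Finset ℕ) (p0 : ℕ) (x y : ℕ) : Prop where
  ne : ∀ p ∈ Q, x.factorization p ≠ y.factorization p
  vh : ∀ p ∈ Q, x.factorization p < y.factorization p →
    VH Θ D (fun n => (n : ℤ)) p (x : ℤ) (y.factorization p)
  vh' : ∀ p ∈ Q, y.factorization p < x.factorization p →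
    VH Θ D (fun n => (n : ℤ)) p (y : ℤ) (x.factorization p)
  co : x.factorization p0 < y.factorization p0 →
    Compat Θ D (fun n => (bq Q n : ℤ)) p0 (y.factorization p0 - x.factorization p0)
      (bq Q x) (bq Q y)
  co' : y.factorization p0 < x.factorization p0 →
    Compat Θ D (fun n => (bq Q n : ℤ)) p0 (x.factorization p0 - y.factorization p0)
      (bq Q y) (bq Q x)

variable {Θ : ℕ} {D Q : Finset ℕ} {p0 : ℕ}

lemma Good.symm {x y : ℕ} (h : Good Θ D Q p0 x y) : Good Θ D Q p0 y x :=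
  ⟨fun p hp => (h.ne p hp).symm, h.vh', h.vh, h.co', h.co⟩

/-- Pairs with prescribed valuations. -/
lemma fiber_le (hQ : ∀ p ∈ Q, p.Prime) (hD : ∀ x ∈ D, x ≠ 0) (hp0 : p0 ∈ Q) (hΘ : 2 ≤ Θ)
    {J : ℕ} (hJ : D.card * D.card < Θ ^ (J + 1)) {x0 y0 : ℕ} (hx0 : x0 ∈ D) (hy0 : y0 ∈ D)
    (hlt : x0.factorization p0 < y0.factorization p0) (T : Finset (ℕ × ℕ))
    (hT : ∀ σ ∈ T, σ.1 ∈ D ∧ σ.2 ∈ D ∧ Good Θ D Q p0 σ.1 σ.2 ∧ σ.1 + σ.2 = x0 + y0 ∧
      (∀ p ∈ Q, σ.1.factorization p = x0.factorization p) ∧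
      (∀ p ∈ Q, σ.2.factorization p = y0.factorization p)) : T.card ≤ 2 ^ J := by
  classical
  set g : ℕ × ℕ → ℤ × ℤ := fun σ => ((bq Q σ.1 : ℤ), (bq Q σ.2 : ℤ)) with hg
  have hcard : (T.image g).card = T.card := by
    apply Finset.card_image_of_injOn
    intro σ hσ ρ hρ hgg
    obtain ⟨s1, s2, _, _, s3, s4⟩ := hT σ hσ
    obtain ⟨r1, r2, _, _, r3, r4⟩ := hT ρ hρ
    simp only [hg, Prod.mk.injEq, Nat.cast_inj] at hgg
    apply Prod.ext
    · exact eq_of_parts hQ (hD _ s1) (hD _ r1) (fun p hp => by rw [s3 p hp, r3 p hp]) hgg.1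
    · exact eq_of_parts hQ (hD _ s2) (hD _ r2) (fun p hp => by rw [s4 p hp, r4 p hp]) hgg.2
  rw [← hcard]
  set i := x0.factorization p0 with hi
  set i' := y0.factorization p0 with hi'
  set l := i' - i with hl
  set c : ℤ := (uq (Q.erase p0) x0 : ℤ) with hc
  set c' : ℤ := (uq (Q.erase p0) y0 : ℤ) with hc'
  have hprime := hQ p0 hp0
  have hcnd : ¬ (p0 : ℤ) ∣ c := by
    rw [hc]
    intro h
    exact not_dvd_uq_erase hQ hp0 (Int.natCast_dvd_natCast.mp h)
  have hcnd' : ¬ (p0 : ℤ) ∣ c' := by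
    rw [hc']
    intro h
    exact not_dvd_uq_erase hQ hp0 (Int.natCast_dvd_natCast.mp h)
  -- decomposition of a pair
  have hdec : ∀ x y : ℕ, x ≠ 0 → y ≠ 0 → (∀ p ∈ Q, x.factorization p = x0.factorization p) →
      (∀ p ∈ Q, y.factorization p = y0.factorization p) →
      ((x + y : ℕ) : ℤ) = (p0 : ℤ) ^ i * (c * bq Q x + p0 ^ l * c' * bq Q y) := by
    intro x y hx hy h1 h2
    have e1 := decomp hQ hx hp0
    have e2 := decomp hQ hy hp0
    have u1 : uq (Q.erase p0) x = uq (Q.erase p0) x0 := by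
      unfold uq
      apply Finset.prod_congr rfl
      intro p hp
      rw [h1 p (Finset.mem_of_mem_erase hp)]
    have u2 : uq (Q.erase p0) y = uq (Q.erase p0) y0 := by
      unfold uq
      apply Finset.prod_congr rfl
      intro p hp
      rw [h2 p (Finset.mem_of_mem_erase hp)]
    rw [u1, h1 p0 hp0] at e1
    rw [u2, h2 p0 hp0] at e2
    have e3 : (x : ℤ) = (p0 : ℤ) ^ i * (c * bq Q x) := by
      rw [hc]; exact_mod_cast e1
    have e4 : (y : ℤ) = (p0 : ℤ) ^ i' * (c' * bq Q y) := by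
      rw [hc']; exact_mod_cast e2
    have e5 : (p0 : ℤ) ^ i' = p0 ^ i * p0 ^ l := by
      rw [← pow_add]; congr 1; omega
    push_cast
    rw [e3, e4, e5]
    ring
  have hp0ne : ((p0 : ℤ) ^ i) ≠ 0 := pow_ne_zero _ (by exact_mod_cast hprime.ne_zero)
  apply decode (D := D) (f := fun n => (bq Q n : ℤ)) (p := p0) (c := c) (c' := c')
    (s := c * bq Q x0 + p0 ^ l * c' * bq Q y0) hprime hcnd hcnd' hΘ l J (T.image g) 0
  · intro σ hσ
    obtain ⟨ρ, hρ, rfl⟩ := Finset.mem_image.mp hσ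
    obtain ⟨s1, s2, s3, s4, s5, s6⟩ := hT ρ hρ
    refine ⟨⟨ρ.1, s1, rfl⟩, ⟨ρ.2, s2, rfl⟩, ?_, ?_⟩
    · have h1 := hdec ρ.1 ρ.2 (hD _ s1) (hD _ s2) s5 s6
      have h2 := hdec x0 y0 (hD _ hx0) (hD _ hy0) (fun _ _ => rfl) (fun _ _ => rfl)
      rw [s4] at h1
      rw [h1] at h2
      exact mul_left_cancel₀ hp0ne h2
    · have h1 := s3.co (by rw [s5 p0 hp0, s6 p0 hp0]; exact hlt)
      rw [s5 p0 hp0, s6 p0 hp0] at h1
      exact h1
  · intro σ _ ρ _
    rw [pow_zero]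
    exact one_dvd _
  · intro σ _
    calc _ ≤ D.card * D.card := Nat.mul_le_mul W_le_card W_le_card
      _ < _ := hJ

/-- Valuation pairs for a fixed sum and a prime. -/
lemma val_pairs_le (hQ : ∀ p ∈ Q, p.Prime) (hD : ∀ x ∈ D, x ≠ 0) (hΘ : 2 ≤ Θ)
    {J : ℕ} (hJ : D.card < Θ ^ (J + 1)) {s : ℕ} (T : Finset (ℕ × ℕ))
    (hT : ∀ σ ∈ T, σ.1 ∈ D ∧ σ.2 ∈ D ∧ Good Θ D Q p0 σ.1 σ.2 ∧ σ.1 + σ.2 = s)
    {p : ℕ} (hp : p ∈ Q) :
    (T.image (fun σ => (σ.1.factorization p, σ.2.factorization p))).card ≤ 2 * (J + 1) := by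
  classical
  have hprime := hQ p hp
  set I1 : Finset ℕ := (T.filter (fun σ => σ.1.factorization p < σ.2.factorization p)).image
    (fun σ => σ.2.factorization p) with hI1
  set I2 : Finset ℕ := (T.filter (fun σ => σ.2.factorization p < σ.1.factorization p)).image
    (fun σ => σ.1.factorization p) with hI2
  have aux : ∀ x y : ℕ, x ∈ D → y ∈ D → x + y = s → x.factorization p < y.factorization p →
      VH Θ D (fun n => (n : ℤ)) p (x : ℤ) (y.factorization p) →
      ∃ x ∈ D, (p : ℤ) ^ (y.factorization p) ∣ (x : ℤ) - s ∧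
        ¬ (p : ℤ) ^ (y.factorization p + 1) ∣ (x : ℤ) - s ∧
        VH Θ D (fun n => (n : ℤ)) p (x : ℤ) (y.factorization p) := by
    intro x y hx hy hs _ hv
    refine ⟨x, hx, ?_, ?_, hv⟩
    · have h1 : p ^ (y.factorization p) ∣ y :=
        (hprime.pow_dvd_iff_le_factorization (hD y hy)).mpr le_rfl
      have e : (x : ℤ) - s = -(y : ℤ) := by rw [← hs]; push_cast; ring
      rw [e, dvd_neg]
      exact_mod_cast h1
    · intro h
      have e : (x : ℤ) - s = -(y : ℤ) := by rw [← hs]; push_cast; ring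
      rw [e, dvd_neg] at h
      have h1 : p ^ (y.factorization p + 1) ∣ y := by exact_mod_cast h
      have := (hprime.pow_dvd_iff_le_factorization (hD y hy)).mp h1
      omega
  have c1 : I1.card ≤ J + 1 := by
    apply start_levels (D := D) (p := p) hΘ hJ (s : ℤ)
    intro i hi
    obtain ⟨σ, hσ, rfl⟩ := Finset.mem_image.mp hi
    obtain ⟨hσT, hlt⟩ := Finset.mem_filter.mp hσ
    obtain ⟨s1, s2, s3, s4⟩ := hT σ hσT
    exact aux σ.1 σ.2 s1 s2 s4 hlt (s3.vh p hp hlt)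
  have c2 : I2.card ≤ J + 1 := by
    apply start_levels (D := D) (p := p) hΘ hJ (s : ℤ)
    intro i hi
    obtain ⟨σ, hσ, rfl⟩ := Finset.mem_image.mp hi
    obtain ⟨hσT, hlt⟩ := Finset.mem_filter.mp hσ
    obtain ⟨s1, s2, s3, s4⟩ := hT σ hσT
    exact aux σ.2 σ.1 s2 s1 (by rw [add_comm]; exact s4) hlt (s3.vh' p hp hlt)
  have hsub : T.image (fun σ => (σ.1.factorization p, σ.2.factorization p)) ⊆
      I1.image (fun i => (s.factorization p, i)) ∪ I2.image (fun i => (i, s.factorization p)) := by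
    intro v hv
    obtain ⟨σ, hσ, rfl⟩ := Finset.mem_image.mp hv
    obtain ⟨s1, s2, s3, s4⟩ := hT σ hσ
    rw [Finset.mem_union]
    rcases lt_or_gt_of_ne (s3.ne p hp) with h | h
    · left
      rw [Finset.mem_image]
      refine ⟨σ.2.factorization p, ?_, ?_⟩
      · exact Finset.mem_image.mpr ⟨σ, Finset.mem_filter.mpr ⟨hσ, h⟩, rfl⟩
      · rw [← s4, factorization_add_of_lt hprime (hD _ s1) (hD _ s2) h]
    · right
      rw [Finset.mem_image]
      refine ⟨σ.1.factorization p, ?_, ?_⟩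
      · exact Finset.mem_image.mpr ⟨σ, Finset.mem_filter.mpr ⟨hσ, h⟩, rfl⟩
      · rw [← s4, add_comm, factorization_add_of_lt hprime (hD _ s2) (hD _ s1) h]
  calc _ ≤ _ := Finset.card_le_card hsub
    _ ≤ _ := Finset.card_union_le _ _
    _ ≤ I1.card + I2.card := Nat.add_le_add Finset.card_image_le Finset.card_image_le
    _ ≤ (J + 1) + (J + 1) := Nat.add_le_add c1 c2
    _ = _ := by ring

/-- Number of good pairs with a given sum. -/
lemma good_sum_le (hQ : ∀ p ∈ Q, p.Prime) (hD : ∀ x ∈ D, x ≠ 0) (hp0 : p0 ∈ Q) (hΘ : 2 ≤ Θ)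
    {J : ℕ} (hJ : D.card * D.card < Θ ^ (J + 1)) {s : ℕ} (T : Finset (ℕ × ℕ))
    (hT : ∀ σ ∈ T, σ.1 ∈ D ∧ σ.2 ∈ D ∧ Good Θ D Q p0 σ.1 σ.2 ∧ σ.1 + σ.2 = s) :
    T.card ≤ 2 ^ J * (2 * (J + 1)) ^ Q.card := by
  classical
  have hJ' : D.card < Θ ^ (J + 1) := by
    rcases Nat.eq_zero_or_pos D.card with h | h
    · rw [h]; positivity
    · exact lt_of_le_of_lt (Nat.le_mul_of_pos_left _ h) hJ
  set κ : ℕ × ℕ → (Q → ℕ × ℕ) :=
    fun σ p => (σ.1.factorization p.1, σ.2.factorization p.1) with hκ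
  have h1 : T.card ≤ 2 ^ J * (T.image κ).card := by
    apply Finset.card_le_mul_card_image
    intro v hv
    obtain ⟨ρ, hρ, rfl⟩ := Finset.mem_image.mp hv
    obtain ⟨r1, r2, r3, r4⟩ := hT ρ hρ
    rcases lt_or_gt_of_ne (r3.ne p0 hp0) with h | h
    · apply fiber_le hQ hD hp0 hΘ hJ r1 r2 h
      intro σ hσ
      obtain ⟨hσT, hk⟩ := Finset.mem_filter.mp hσ
      obtain ⟨s1, s2, s3, s4⟩ := hT σ hσT
      have hk' : ∀ p ∈ Q, σ.1.factorization p = ρ.1.factorization p ∧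
          σ.2.factorization p = ρ.2.factorization p := by
        intro p hp
        have := congrFun hk ⟨p, hp⟩
        simpa [hκ] using this
      exact ⟨s1, s2, s3, by rw [s4, r4], fun p hp => (hk' p hp).1, fun p hp => (hk' p hp).2⟩
    · -- swap
      have hsw : (T.filter (fun σ => κ σ = κ ρ)).card =
          ((T.filter (fun σ => κ σ = κ ρ)).image Prod.swap).card :=
        (Finset.card_image_of_injective _ Prod.swap_injective).symm
      rw [hsw]
      apply fiber_le hQ hD hp0 hΘ hJ r2 r1 h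
      intro σ' hσ'
      obtain ⟨σ, hσ, rfl⟩ := Finset.mem_image.mp hσ'
      obtain ⟨hσT, hk⟩ := Finset.mem_filter.mp hσ
      obtain ⟨s1, s2, s3, s4⟩ := hT σ hσT
      have hk' : ∀ p ∈ Q, σ.1.factorization p = ρ.1.factorization p ∧
          σ.2.factorization p = ρ.2.factorization p := by
        intro p hp
        have := congrFun hk ⟨p, hp⟩
        simpa [hκ] using this
      exact ⟨s2, s1, s3.symm, by simp only [Prod.fst_swap, Prod.snd_swap]; omega,
        fun p hp => (hk' p hp).2, fun p hp => (hk' p hp).1⟩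
  have h2 : (T.image κ).card ≤ (2 * (J + 1)) ^ Q.card := by
    have hsub : T.image κ ⊆ Fintype.piFinset (fun p : Q =>
        T.image (fun σ => (σ.1.factorization p.1, σ.2.factorization p.1))) := by
      intro v hv
      obtain ⟨ρ, hρ, rfl⟩ := Finset.mem_image.mp hv
      rw [Fintype.mem_piFinset]
      intro p
      exact Finset.mem_image.mpr ⟨ρ, hρ, rfl⟩
    calc _ ≤ _ := Finset.card_le_card hsub
      _ = ∏ p : Q, (T.image (fun σ => (σ.1.factorization p.1, σ.2.factorization p.1))).card :=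
        Fintype.card_piFinset _
      _ ≤ ∏ _p : Q, (2 * (J + 1)) := by
        apply Finset.prod_le_prod'
        intro p _
        exact val_pairs_le hQ hD hΘ hJ' T hT p.2
      _ = _ := by rw [Finset.prod_const, Finset.card_univ, Fintype.card_coe]
  calc T.card ≤ 2 ^ J * (T.image κ).card := h1
    _ ≤ _ := Nat.mul_le_mul_left _ h2

end Pool.Agent.Helper20.SP
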