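import Mathlib
import Pool.Agent.Helper20.SP.Additive

set_option autoImplicit false

namespace Pool.Agent.Helper20.SP

/-- Largest number of elements of the `Q`-fibre of `b` with a given valuation at `p`. -/
noncomputable def mu (D Q : Finset ℕ) (p b : ℕ) : ℕ :=
  (D.image (fun y => y.factorization p)).sup
    (fun i => (D.filter (fun y => bq Q y = b ∧ y.factorization p = i)).card)

/-- The spreading hypothesis. -/
def Spread (lam : ℝ) (D Q : Finset ℕ) (p : ℕ) : Prop :=
  ((∑ b ∈ D.image (bq Q), mu D Q p b : ℕ) : ℝ) ≤ lam * D.card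

variable {Θ : ℕ} {D Q : Finset ℕ} {p0 : ℕ} {lam : ℝ}

lemma card_le_mu (p b i : ℕ) :
    (D.filter (fun y => bq Q y = b ∧ y.factorization p = i)).card ≤ mu D Q p b := by
  by_cases hi : i ∈ D.image (fun y => y.factorization p)
  · exact Finset.le_sup (f := fun i => (D.filter
      (fun y => bq Q y = b ∧ y.factorization p = i)).card) hi
  · have : D.filter (fun y => bq Q y = b ∧ y.factorization p = i) = ∅ := by
      rw [Finset.filter_eq_empty_iff]
      intro y hy h
      exact hi (Finset.mem_image.mpr ⟨y, hy, h.2⟩)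
    rw [this]
    simp

/-- Counting elements whose valuation lies in a small forbidden set. -/
lemma count_one {p : ℕ} (hH : Spread lam D Q p) (P : ℕ → Set ℕ) [∀ b i, Decidable (i ∈ P b)]
    {e : ℝ} (he0 : 0 ≤ e)
    (he : ∀ b ∈ D.image (bq Q), ∀ T : Finset ℕ, (∀ t ∈ T, t ∈ P b) → (T.card : ℝ) ≤ e) :
    ((D.filter (fun y => y.factorization p ∈ P (bq Q y))).card : ℝ) ≤ e * (lam * D.card) := by
  classical
  set F := D.filter (fun y => y.factorization p ∈ P (bq Q y)) with hF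
  have h1 : F.card = ∑ b ∈ D.image (bq Q), (F.filter (fun y => bq Q y = b)).card := by
    apply Finset.card_eq_sum_card_fiberwise
    intro y hy
    exact Finset.mem_image.mpr ⟨y, (Finset.mem_filter.mp hy).1, rfl⟩
  have h2 : ∀ b ∈ D.image (bq Q), ((F.filter (fun y => bq Q y = b)).card : ℝ) ≤
      e * (mu D Q p b : ℝ) := by
    intro b hb
    have h3 : (F.filter (fun y => bq Q y = b)).card ≤
        mu D Q p b * ((F.filter (fun y => bq Q y = b)).image (fun y => y.factorization p)).card := by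
      apply Finset.card_le_mul_card_image
      intro i _
      apply le_trans _ (card_le_mu (D := D) (Q := Q) p b i)
      apply Finset.card_le_card
      intro y hy
      simp only [hF, Finset.mem_filter] at hy ⊢
      tauto
    have h4 := he b hb ((F.filter (fun y => bq Q y = b)).image (fun y => y.factorization p)) (by
      intro t ht
      obtain ⟨y, hy, rfl⟩ := Finset.mem_image.mp ht
      simp only [hF, Finset.mem_filter] at hy
      rw [← hy.2]
      exact hy.1.2)
    calc ((F.filter (fun y => bq Q y = b)).card : ℝ) ≤ (mu D Q p b : ℝ) *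
          (((F.filter (fun y => bq Q y = b)).image (fun y => y.factorization p)).card : ℝ) := by
          exact_mod_cast h3
      _ ≤ (mu D Q p b : ℝ) * e := mul_le_mul_of_nonneg_left h4 (Nat.cast_nonneg _)
      _ = _ := mul_comm _ _
  calc (F.card : ℝ) = ∑ b ∈ D.image (bq Q), ((F.filter (fun y => bq Q y = b)).card : ℝ) := by
        rw [h1]; push_cast; rfl
    _ ≤ ∑ b ∈ D.image (bq Q), e * (mu D Q p b : ℝ) := Finset.sum_le_sum h2
    _ = e * ((∑ b ∈ D.image (bq Q), mu D Q p b : ℕ) : ℝ) := by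
        rw [← Finset.mul_sum]; push_cast; rfl
    _ ≤ _ := mul_le_mul_of_nonneg_left hH he0

/-- Counting pairs with forbidden valuations in the second coordinate. -/
lemma count_pairs {p : ℕ} (hH : Spread lam D Q p) (P : ℕ → ℕ → Set ℕ)
    [∀ x b i, Decidable (i ∈ P x b)]
    {e : ℝ} (he0 : 0 ≤ e)
    (he : ∀ x ∈ D, ∀ b ∈ D.image (bq Q), ∀ T : Finset ℕ, (∀ t ∈ T, t ∈ P x b) → (T.card : ℝ) ≤ e) :
    (((D ×ˢ D).filter (fun σ => σ.2.factorization p ∈ P σ.1 (bq Q σ.2))).card : ℝ) ≤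
      e * lam * (D.card * D.card) := by
  classical
  have h1 : ((D ×ˢ D).filter (fun σ => σ.2.factorization p ∈ P σ.1 (bq Q σ.2))).card =
      ∑ x ∈ D, (D.filter (fun y => y.factorization p ∈ P x (bq Q y))).card := by
    rw [Finset.card_filter, Finset.sum_product]
    apply Finset.sum_congr rfl
    intro x _
    rw [Finset.card_filter]
  rw [h1]
  push_cast
  calc ∑ x ∈ D, ((D.filter (fun y => y.factorization p ∈ P x (bq Q y))).card : ℝ)
      ≤ ∑ x ∈ D, e * (lam * D.card) := by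
        apply Finset.sum_le_sum
        intro x hx
        exact count_one hH (P x) he0 (he x hx)
    _ = _ := by
        rw [Finset.sum_const, nsmul_eq_mul]; ring

lemma count_pairs' {p : ℕ} (hH : Spread lam D Q p) (P : ℕ → ℕ → Set ℕ)
    [∀ x b i, Decidable (i ∈ P x b)]
    {e : ℝ} (he0 : 0 ≤ e)
    (he : ∀ x ∈ D, ∀ b ∈ D.image (bq Q), ∀ T : Finset ℕ, (∀ t ∈ T, t ∈ P x b) → (T.card : ℝ) ≤ e) :
    (((D ×ˢ D).filter (fun σ => σ.1.factorization p ∈ P σ.2 (bq Q σ.1))).card : ℝ) ≤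
      e * lam * (D.card * D.card) := by
  classical
  have h := count_pairs hH P he0 he
  have : ((D ×ˢ D).filter (fun σ => σ.1.factorization p ∈ P σ.2 (bq Q σ.1))).card =
      ((D ×ˢ D).filter (fun σ => σ.2.factorization p ∈ P σ.1 (bq Q σ.2))).card := by
    rw [← Finset.card_image_of_injective _ Prod.swap_injective]
    congr 1
    ext σ
    simp only [Finset.mem_image, Finset.mem_filter, Finset.mem_product]
    constructor
    · rintro ⟨ρ, ⟨⟨h1, h2⟩, h3⟩, rfl⟩
      exact ⟨⟨h2, h1⟩, h3⟩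
    · rintro ⟨⟨h1, h2⟩, h3⟩
      exact ⟨σ.swap, ⟨⟨h2, h1⟩, h3⟩, Prod.swap_swap σ⟩
  rw [this]
  exact h

/-- The number of shifts that are incompatible for two given classes. -/
lemma incompat_le (hΘ : 2 ≤ Θ) {f : ℕ → ℤ} {p x y : ℕ} (hx : x ∈ D) (hy : y ∈ D) (T : Finset ℕ)
    (hT : ∀ l ∈ T, ¬ Compat Θ D f p l (f x) (f y)) :
    (T.card : ℝ) ≤ 4 * Θ * (Real.log D.card) ^ 2 := by
  classical
  have hch : ∀ l ∈ T, ∃ τ : ℕ, (Light D f p (f y) τ ∧ ¬ VH Θ D f p (f x) (l + τ)) ∨
      (Light D f p (f x) (l + τ) ∧ ¬ VH Θ D f p (f y) τ) := by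
    intro l hl
    have h := hT l hl
    unfold Compat at h
    push Not at h
    obtain ⟨τ, h⟩ := h
    refine ⟨τ, ?_⟩
    by_cases h1 : Light D f p (f y) τ ∧ ¬ VH Θ D f p (f x) (l + τ)
    · exact Or.inl h1
    · right
      apply h
      intro h2
      by_contra h3
      exact h1 ⟨h2, h3⟩
  choose! g hg using hch
  have hlog : 0 ≤ Real.log D.card := by
    apply Real.log_nonneg
    have : 1 ≤ D.card := Finset.card_pos.mpr ⟨x, hx⟩
    exact_mod_cast this
  set T1 := T.filter (fun l => Light D f p (f y) (g l) ∧ ¬ VH Θ D f p (f x) (l + g l)) with hT1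
  set T2 := T.filter (fun l => Light D f p (f x) (l + g l) ∧ ¬ VH Θ D f p (f y) (g l)) with hT2
  have hinj : Function.Injective (fun l => (l + g l, g l)) := by
    intro a b hab
    simp only [Prod.mk.injEq] at hab
    omega
  have hcov : T ⊆ T1 ∪ T2 := by
    intro l hl
    rw [Finset.mem_union]
    rcases hg l hl with h | h
    · exact Or.inl (Finset.mem_filter.mpr ⟨hl, h⟩)
    · exact Or.inr (Finset.mem_filter.mpr ⟨hl, h⟩)
  have b1 : (T1.card : ℝ) ≤ (Θ * Real.log D.card) * (2 * Real.log D.card) := by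
    have h1 : (T1.image (fun l => (l + g l, g l))).card = T1.card :=
      Finset.card_image_of_injective _ hinj
    have h2 : T1.image (fun l => (l + g l, g l)) ⊆
        (T1.image (fun l => l + g l)) ×ˢ (T1.image g) := by
      intro v hv
      obtain ⟨l, hl, rfl⟩ := Finset.mem_image.mp hv
      rw [Finset.mem_product]
      exact ⟨Finset.mem_image.mpr ⟨l, hl, rfl⟩, Finset.mem_image.mpr ⟨l, hl, rfl⟩⟩
    have h3 := Finset.card_le_card h2
    rw [h1, Finset.card_product] at h3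
    have h4 : ((T1.image (fun l => l + g l)).card : ℝ) ≤ Θ * Real.log D.card := by
      apply notVH_levels (D := D) (f := f) (p := p) hΘ hx
      intro t ht
      obtain ⟨l, hl, rfl⟩ := Finset.mem_image.mp ht
      exact (Finset.mem_filter.mp hl).2.2
    have h5 : ((T1.image g).card : ℝ) ≤ 2 * Real.log D.card := by
      apply light_levels (D := D) (f := f) (p := p) hy
      intro t ht
      obtain ⟨l, hl, rfl⟩ := Finset.mem_image.mp ht
      exact (Finset.mem_filter.mp hl).2.1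
    calc (T1.card : ℝ) ≤ ((T1.image (fun l => l + g l)).card : ℝ) * ((T1.image g).card : ℝ) := by
          exact_mod_cast h3
      _ ≤ _ := mul_le_mul h4 h5 (Nat.cast_nonneg _) (by positivity)
  have b2 : (T2.card : ℝ) ≤ (2 * Real.log D.card) * (Θ * Real.log D.card) := by
    have h1 : (T2.image (fun l => (l + g l, g l))).card = T2.card :=
      Finset.card_image_of_injective _ hinj
    have h2 : T2.image (fun l => (l + g l, g l)) ⊆
        (T2.image (fun l => l + g l)) ×ˢ (T2.image g) := by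
      intro v hv
      obtain ⟨l, hl, rfl⟩ := Finset.mem_image.mp hv
      rw [Finset.mem_product]
      exact ⟨Finset.mem_image.mpr ⟨l, hl, rfl⟩, Finset.mem_image.mpr ⟨l, hl, rfl⟩⟩
    have h3 := Finset.card_le_card h2
    rw [h1, Finset.card_product] at h3
    have h4 : ((T2.image (fun l => l + g l)).card : ℝ) ≤ 2 * Real.log D.card := by
      apply light_levels (D := D) (f := f) (p := p) hx
      intro t ht
      obtain ⟨l, hl, rfl⟩ := Finset.mem_image.mp ht
      exact (Finset.mem_filter.mp hl).2.1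
    have h5 : ((T2.image g).card : ℝ) ≤ Θ * Real.log D.card := by
      apply notVH_levels (D := D) (f := f) (p := p) hΘ hy
      intro t ht
      obtain ⟨l, hl, rfl⟩ := Finset.mem_image.mp ht
      exact (Finset.mem_filter.mp hl).2.2
    calc (T2.card : ℝ) ≤ ((T2.image (fun l => l + g l)).card : ℝ) * ((T2.image g).card : ℝ) := by
          exact_mod_cast h3
      _ ≤ _ := mul_le_mul h4 h5 (Nat.cast_nonneg _) (by positivity)
  have hc : (T.card : ℝ) ≤ T1.card + T2.card := by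
    have := (Finset.card_le_card hcov).trans (Finset.card_union_le _ _)
    exact_mod_cast this
  calc (T.card : ℝ) ≤ T1.card + T2.card := hc
    _ ≤ _ := add_le_add b1 b2
    _ = _ := by ring

/-- Forbidden values, type 0. -/
def P0 (p : ℕ) (x _b : ℕ) : Set ℕ := {i | i = x.factorization p}

/-- Forbidden values, type 1. -/
def P1 (Θ : ℕ) (D : Finset ℕ) (p : ℕ) (x _b : ℕ) : Set ℕ :=
  {i | ¬ VH Θ D (fun n => (n : ℤ)) p (x : ℤ) i}

/-- Forbidden values, type 2. -/
def P2 (Θ : ℕ) (D Q : Finset ℕ) (p0 : ℕ) (x b : ℕ) : Set ℕ :=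
  {i | x.factorization p0 < i ∧ ¬ Compat Θ D (fun n => (bq Q n : ℤ)) p0
        (i - x.factorization p0) (bq Q x) b}

/-- Number of bad pairs. -/
lemma bad_le (hΘ : 2 ≤ Θ) (hp0 : p0 ∈ Q) (hH : ∀ p ∈ Q, Spread lam D Q p)
    (T : Finset (ℕ × ℕ)) (hT : ∀ σ ∈ T, σ.1 ∈ D ∧ σ.2 ∈ D ∧ ¬ Good Θ D Q p0 σ.1 σ.2) :
    (T.card : ℝ) ≤ (Q.card + 2 * Q.card * (Θ * Real.log D.card) +
      2 * (4 * Θ * (Real.log D.card) ^ 2)) * lam * (D.card * D.card) := by
  classical
  have hlog : 0 ≤ Real.log D.card := Real.log_natCast_nonneg _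
  -- the five types of bad pairs
  set B0 : ℕ → Finset (ℕ × ℕ) := fun p => (D ×ˢ D).filter
    (fun σ => σ.2.factorization p ∈ P0 p σ.1 (bq Q σ.2)) with hB0
  set B1 : ℕ → Finset (ℕ × ℕ) := fun p => (D ×ˢ D).filter
    (fun σ => σ.2.factorization p ∈ P1 Θ D p σ.1 (bq Q σ.2)) with hB1
  set B1' : ℕ → Finset (ℕ × ℕ) := fun p => (D ×ˢ D).filter
    (fun σ => σ.1.factorization p ∈ P1 Θ D p σ.2 (bq Q σ.1)) with hB1'
  set B2 : Finset (ℕ × ℕ) := (D ×ˢ D).filter
    (fun σ => σ.2.factorization p0 ∈ P2 Θ D Q p0 σ.1 (bq Q σ.2)) with hB2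
  set B2' : Finset (ℕ × ℕ) := (D ×ˢ D).filter
    (fun σ => σ.1.factorization p0 ∈ P2 Θ D Q p0 σ.2 (bq Q σ.1)) with hB2'
  have hcov : T ⊆ Q.biUnion B0 ∪ Q.biUnion B1 ∪ Q.biUnion B1' ∪ B2 ∪ B2' := by
    intro σ hσ
    obtain ⟨h1, h2, h3⟩ := hT σ hσ
    by_contra hcon
    simp only [Finset.mem_union, Finset.mem_biUnion, not_or, not_exists, not_and] at hcon
    obtain ⟨⟨⟨⟨c0, c1⟩, c1'⟩, c2⟩, c2'⟩ := hcon
    apply h3
    have hmem : σ ∈ D ×ˢ D := Finset.mem_product.mpr ⟨h1, h2⟩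
    refine ⟨?_, ?_, ?_, ?_, ?_⟩
    · intro p hp heq
      exact c0 p hp (Finset.mem_filter.mpr ⟨hmem, heq.symm⟩)
    · intro p hp _
      by_contra hv
      exact c1 p hp (Finset.mem_filter.mpr ⟨hmem, hv⟩)
    · intro p hp _
      by_contra hv
      exact c1' p hp (Finset.mem_filter.mpr ⟨hmem, hv⟩)
    · intro hlt
      by_contra hv
      exact c2 (Finset.mem_filter.mpr ⟨hmem, hlt, hv⟩)
    · intro hlt
      by_contra hv
      exact c2' (Finset.mem_filter.mpr ⟨hmem, hlt, hv⟩)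
  have n0 : ∀ p ∈ Q, ((B0 p).card : ℝ) ≤ 1 * lam * (D.card * D.card) := by
    intro p hp
    refine count_pairs (hH p hp) (P0 p) zero_le_one ?_
    intro x _ b _ T' hT'
    have : T' ⊆ {x.factorization p} := by
      intro t ht
      rw [Finset.mem_singleton]
      exact hT' t ht
    have h5 := Finset.card_le_card this
    rw [Finset.card_singleton] at h5
    exact_mod_cast h5
  have key1 : ∀ p, ∀ x ∈ D, ∀ b ∈ D.image (bq Q), ∀ T' : Finset ℕ,
      (∀ t ∈ T', t ∈ P1 Θ D p x b) → (T'.card : ℝ) ≤ Θ * Real.log D.card := by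
    intro p x hx b _ T' hT'
    have hT2 : ∀ t ∈ T', ¬ VH Θ D (fun n => (n : ℤ)) p ((fun n : ℕ => (n : ℤ)) x) t :=
      fun t ht => hT' t ht
    exact notVH_levels hΘ hx T' hT2
  have n1 : ∀ p ∈ Q, ((B1 p).card : ℝ) ≤ (Θ * Real.log D.card) * lam * (D.card * D.card) := by
    intro p hp
    exact count_pairs (hH p hp) (P1 Θ D p) (by positivity) (key1 p)
  have n1' : ∀ p ∈ Q, ((B1' p).card : ℝ) ≤ (Θ * Real.log D.card) * lam * (D.card * D.card) := by
    intro p hp
    exact count_pairs' (hH p hp) (P1 Θ D p) (by positivity) (key1 p)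
  have key : ∀ x ∈ D, ∀ b ∈ D.image (bq Q), ∀ T' : Finset ℕ,
      (∀ t ∈ T', t ∈ P2 Θ D Q p0 x b) →
      (T'.card : ℝ) ≤ 4 * Θ * (Real.log D.card) ^ 2 := by
    intro x hx b hb T' hT'
    obtain ⟨y, hy, rfl⟩ := Finset.mem_image.mp hb
    have h1 : (T'.image (fun i => i - x.factorization p0)).card = T'.card := by
      apply Finset.card_image_of_injOn
      intro a ha a' ha' heq
      have e1 := (hT' a ha).1
      have e2 := (hT' a' ha').1
      simp only at heq
      omega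
    rw [← h1]
    apply incompat_le (f := fun n => (bq Q n : ℤ)) (p := p0) hΘ hx hy
    intro l hl
    obtain ⟨i, hi, rfl⟩ := Finset.mem_image.mp hl
    exact (hT' i hi).2
  have n2 : (B2.card : ℝ) ≤ (4 * Θ * (Real.log D.card) ^ 2) * lam * (D.card * D.card) :=
    count_pairs (hH p0 hp0) (P2 Θ D Q p0) (by positivity) key
  have n2' : (B2'.card : ℝ) ≤ (4 * Θ * (Real.log D.card) ^ 2) * lam * (D.card * D.card) :=
    count_pairs' (hH p0 hp0) (P2 Θ D Q p0) (by positivity) key
  have bu : ∀ (B : ℕ → Finset (ℕ × ℕ)) (e : ℝ), (∀ p ∈ Q, ((B p).card : ℝ) ≤ e) →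
      ((Q.biUnion B).card : ℝ) ≤ Q.card * e := by
    intro B e hB
    calc ((Q.biUnion B).card : ℝ) ≤ ((∑ p ∈ Q, (B p).card : ℕ) : ℝ) := by
          exact_mod_cast Finset.card_biUnion_le
      _ = ∑ p ∈ Q, ((B p).card : ℝ) := by push_cast; rfl
      _ ≤ ∑ _p ∈ Q, e := Finset.sum_le_sum hB
      _ = _ := by rw [Finset.sum_const, nsmul_eq_mul]
  have u0 := bu B0 _ n0
  have u1 := bu B1 _ n1
  have u1' := bu B1' _ n1'
  have ht : (T.card : ℝ) ≤ ((Q.biUnion B0).card : ℝ) + ((Q.biUnion B1).card : ℝ) +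
      ((Q.biUnion B1').card : ℝ) + (B2.card : ℝ) + (B2'.card : ℝ) := by
    have h := Finset.card_le_card hcov
    have e1 := Finset.card_union_le (Q.biUnion B0 ∪ Q.biUnion B1 ∪ Q.biUnion B1' ∪ B2) B2'
    have e2 := Finset.card_union_le (Q.biUnion B0 ∪ Q.biUnion B1 ∪ Q.biUnion B1') B2
    have e3 := Finset.card_union_le (Q.biUnion B0 ∪ Q.biUnion B1) (Q.biUnion B1')
    have e4 := Finset.card_union_le (Q.biUnion B0) (Q.biUnion B1)
    have : T.card ≤ (Q.biUnion B0).card + (Q.biUnion B1).card + (Q.biUnion B1').card + B2.card +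
      B2'.card := by omega
    exact_mod_cast this
  calc (T.card : ℝ) ≤ _ := ht
    _ ≤ Q.card * (1 * lam * (D.card * D.card)) +
        Q.card * ((Θ * Real.log D.card) * lam * (D.card * D.card)) +
        Q.card * ((Θ * Real.log D.card) * lam * (D.card * D.card)) +
        (4 * Θ * (Real.log D.card) ^ 2) * lam * (D.card * D.card) +
        (4 * Θ * (Real.log D.card) ^ 2) * lam * (D.card * D.card) := by
        linarith
    _ = _ := by ring

/-- The additive theorem. -/
theorem additive (hQ : ∀ p ∈ Q, p.Prime) (hQne : Q.Nonempty) (hD : ∀ x ∈ D, x ≠ 0)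
    (hΘ : 2 ≤ Θ) {J : ℕ} (hJ : D.card * D.card < Θ ^ (J + 1))
    (hH : ∀ p ∈ Q, Spread lam D Q p)
    (hlam : (Q.card + 2 * Q.card * (Θ * Real.log D.card) +
      2 * (4 * Θ * (Real.log D.card) ^ 2)) * lam ≤ 1 / 2) :
    (D.card : ℝ) * D.card ≤ 2 * (2 ^ J * (2 * (J + 1)) ^ Q.card) *
      ((D ×ˢ D).image (fun σ : ℕ × ℕ => σ.1 + σ.2)).card := by
  classical
  obtain ⟨p0, hp0⟩ := hQne
  set GP := (D ×ˢ D).filter (fun σ : ℕ × ℕ => Good Θ D Q p0 σ.1 σ.2) with hGP
  set BP := (D ×ˢ D).filter (fun σ : ℕ × ℕ => ¬ Good Θ D Q p0 σ.1 σ.2) with hBP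
  have h1 : GP.card + BP.card = D.card * D.card := by
    rw [hGP, hBP, Finset.card_filter_add_card_filter_not, Finset.card_product]
  have h2 : (BP.card : ℝ) ≤ 1 / 2 * (D.card * D.card) := by
    have := bad_le (lam := lam) hΘ hp0 hH BP (by
      intro σ hσ
      obtain ⟨a, b⟩ := Finset.mem_filter.mp hσ
      rw [Finset.mem_product] at a
      exact ⟨a.1, a.2, b⟩)
    refine this.trans ?_
    exact mul_le_mul_of_nonneg_right hlam (by positivity)
  have h3 : GP.card ≤ (2 ^ J * (2 * (J + 1)) ^ Q.card) *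
      (GP.image (fun σ : ℕ × ℕ => σ.1 + σ.2)).card := by
    apply Finset.card_le_mul_card_image
    intro s _
    apply good_sum_le hQ hD hp0 hΘ hJ (s := s)
    intro σ hσ
    obtain ⟨a, b⟩ := Finset.mem_filter.mp hσ
    obtain ⟨a1, a2⟩ := Finset.mem_filter.mp a
    rw [Finset.mem_product] at a1
    exact ⟨a1.1, a1.2, a2, b⟩
  have h4 : (GP.image (fun σ : ℕ × ℕ => σ.1 + σ.2)).card ≤
      ((D ×ˢ D).image (fun σ : ℕ × ℕ => σ.1 + σ.2)).card :=
    Finset.card_le_card (Finset.image_subset_image (Finset.filter_subset _ _))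
  have h5 : GP.card ≤ (2 ^ J * (2 * (J + 1)) ^ Q.card) *
      ((D ×ˢ D).image (fun σ : ℕ × ℕ => σ.1 + σ.2)).card := h3.trans (Nat.mul_le_mul_left _ h4)
  have h6 : (GP.card : ℝ) ≤ (2 ^ J * (2 * (J + 1)) ^ Q.card) *
      ((D ×ˢ D).image (fun σ : ℕ × ℕ => σ.1 + σ.2)).card := by exact_mod_cast h5
  have h7 : (GP.card : ℝ) + BP.card = D.card * D.card := by exact_mod_cast h1
  linarith

end Pool.Agent.Helper20.SP
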