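import Mathlib
import Pool.Agent.Helper20.SP.Bad

set_option autoImplicit false

namespace Pool.Agent.Helper20.SP

/-- The spreading lemma. -/
theorem spreading {lam : ℝ} (h0 : 0 < lam) (h1 : lam ≤ 1) : ∀ (n : ℕ) (Q D : Finset ℕ),
    Q.card = n → (∀ p ∈ Q, p.Prime) → (∀ x ∈ D, x ≠ 0) →
    ((D.image (bq Q)).card : ℝ) < lam ^ Q.card * D.card →
    ∃ D' ⊆ D, ∃ Q' ⊆ Q, Q'.Nonempty ∧ (∀ p ∈ Q', Spread lam D' Q' p) ∧
      lam ^ Q.card * D.card ≤ D'.card := by
  classical
  intro n
  induction n with
  | zero =>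
    intro Q D hn _ _ hlt
    rw [Finset.card_eq_zero] at hn
    subst hn
    have : D.image (bq ∅) = D := by
      have : bq ∅ = id := funext bq_empty
      rw [this, Finset.image_id]
    rw [this] at hlt
    simp at hlt
  | succ n ih =>
    intro Q D hn hQ hD hlt
    have hDpos : (0 : ℝ) ≤ D.card := Nat.cast_nonneg _
    have hQne : Q.Nonempty := Finset.card_pos.mp (by omega)
    by_cases hall : ∀ p ∈ Q, Spread lam D Q p
    · refine ⟨D, Finset.Subset.refl _, Q, Finset.Subset.refl _, hQne, hall, ?_⟩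
      calc lam ^ Q.card * D.card ≤ 1 * D.card :=
            mul_le_mul_of_nonneg_right (pow_le_one₀ h0.le h1) hDpos
        _ = _ := one_mul _
    · push Not at hall
      obtain ⟨p, hp, hns⟩ := hall
      unfold Spread at hns
      push Not at hns
      -- choose the most popular valuation in each fibre
      have hch : ∀ b ∈ D.image (bq Q), ∃ i,
          (D.filter (fun y => bq Q y = b ∧ y.factorization p = i)).card = mu D Q p b := by
        intro b hb
        obtain ⟨y, hy, _⟩ := Finset.mem_image.mp hb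
        obtain ⟨i, _, hi⟩ := Finset.exists_mem_eq_sup (D.image (fun y => y.factorization p))
          ⟨_, Finset.mem_image.mpr ⟨y, hy, rfl⟩⟩
          (fun i => (D.filter (fun y => bq Q y = b ∧ y.factorization p = i)).card)
        exact ⟨i, hi.symm⟩
      choose! g hg using hch
      set D1 := D.filter (fun y => y.factorization p = g (bq Q y)) with hD1
      have hD1sub : D1 ⊆ D := Finset.filter_subset _ _
      have hcard : D1.card = ∑ b ∈ D.image (bq Q), mu D Q p b := by
        rw [Finset.card_eq_sum_card_fiberwise (f := bq Q) (t := D.image (bq Q))]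
        · apply Finset.sum_congr rfl
          intro b hb
          rw [← hg b hb]
          congr 1
          ext y
          simp only [hD1, Finset.mem_filter]
          constructor
          · rintro ⟨⟨a, b1⟩, c⟩
            exact ⟨a, c, by rw [b1, c]⟩
          · rintro ⟨a, b1, c⟩
            exact ⟨⟨a, by rw [c, b1]⟩, b1⟩
        · intro y hy
          exact Finset.mem_image.mpr ⟨y, hD1sub hy, rfl⟩
      have hD1card : lam * D.card < D1.card := by
        rw [hcard]; exact hns
      have himg : (D1.image (bq (Q.erase p))).card ≤ (D.image (bq Q)).card := by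
        have hsub : D1.image (bq (Q.erase p)) ⊆
            (D.image (bq Q)).image (fun b => p ^ g b * b) := by
          intro z hz
          obtain ⟨y, hy, rfl⟩ := Finset.mem_image.mp hz
          obtain ⟨hyD, hyg⟩ := Finset.mem_filter.mp hy
          rw [Finset.mem_image]
          refine ⟨bq Q y, Finset.mem_image.mpr ⟨y, hyD, rfl⟩, ?_⟩
          rw [bq_erase hQ (hD y hyD) hp, hyg]
        exact (Finset.card_le_card hsub).trans Finset.card_image_le
      have hec : (Q.erase p).card = n := by rw [Finset.card_erase_of_mem hp]; omega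
      have hlt1 : ((D1.image (bq (Q.erase p))).card : ℝ) < lam ^ (Q.erase p).card * D1.card := by
        have e1 : ((D1.image (bq (Q.erase p))).card : ℝ) ≤ ((D.image (bq Q)).card : ℝ) := by
          exact_mod_cast himg
        have e2 : lam ^ Q.card * (D.card : ℝ) = lam ^ n * (lam * D.card) := by
          rw [hn, pow_succ]; ring
        rw [hec]
        calc _ ≤ _ := e1
          _ < lam ^ Q.card * (D.card : ℝ) := hlt
          _ = lam ^ n * (lam * D.card) := e2
          _ ≤ lam ^ n * D1.card := mul_le_mul_of_nonneg_left hD1card.le (by positivity)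
      obtain ⟨D', hD', Q', hQ', hne, hs, hc⟩ := ih (Q.erase p) D1 hec
        (fun q hq => hQ q (Finset.mem_of_mem_erase hq)) (fun x hx => hD x (hD1sub hx)) hlt1
      refine ⟨D', hD'.trans hD1sub, Q', hQ'.trans (Finset.erase_subset _ _), hne, hs, ?_⟩
      refine le_trans ?_ hc
      have e2 : lam ^ Q.card * (D.card : ℝ) = lam ^ n * (lam * D.card) := by
        rw [hn, pow_succ]; ring
      rw [e2, hec]
      exact mul_le_mul_of_nonneg_left hD1card.le (by positivity)

/-- Elements divisible by all primes of `P`. -/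
def divBy (A P : Finset ℕ) : Finset ℕ := A.filter (fun a => ∀ p ∈ P, p ∣ a)

/-- Choice of the popular primes. -/
lemma exists_popular (A : Finset ℕ) (hA0 : ∀ a ∈ A, a ≠ 0) {R : ℝ} (hR : 0 < R) :
    ∃ P : Finset ℕ, (∀ p ∈ P, p.Prime) ∧ (A.card : ℝ) ≤ (divBy A P).card * R ^ P.card ∧
      ∀ q, q.Prime → q ∉ P →
        (((divBy A P).filter (fun a => q ∣ a)).card : ℝ) * R ≤ (divBy A P).card := by
  classical
  set U := A.biUnion Nat.primeFactors with hU
  set F := U.powerset.filter (fun P => (A.card : ℝ) ≤ (divBy A P).card * R ^ P.card) with hF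
  have hFne : F.Nonempty := by
    refine ⟨∅, ?_⟩
    rw [hF, Finset.mem_filter]
    refine ⟨Finset.empty_mem_powerset _, ?_⟩
    simp [divBy]
  obtain ⟨P, hP, hmax⟩ := Finset.exists_max_image F Finset.card hFne
  rw [hF, Finset.mem_filter, Finset.mem_powerset] at hP
  have hprime : ∀ p ∈ U, p.Prime := by
    intro p hp
    rw [hU, Finset.mem_biUnion] at hp
    obtain ⟨a, _, ha⟩ := hp
    exact Nat.prime_of_mem_primeFactors ha
  refine ⟨P, fun p hp => hprime p (hP.1 hp), hP.2, ?_⟩
  intro q hq hqP
  by_cases hqU : q ∈ U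
  · -- maximality
    have hnot : insert q P ∉ F := by
      intro h
      have := hmax _ h
      rw [Finset.card_insert_of_notMem hqP] at this
      omega
    have h1 : ¬ ((A.card : ℝ) ≤ (divBy A (insert q P)).card * R ^ (insert q P).card) := by
      intro h
      apply hnot
      rw [hF, Finset.mem_filter, Finset.mem_powerset]
      exact ⟨Finset.insert_subset hqU hP.1, h⟩
    push Not at h1
    have h2 : divBy A (insert q P) = (divBy A P).filter (fun a => q ∣ a) := by
      ext a
      simp only [divBy, Finset.mem_filter, Finset.forall_mem_insert]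
      tauto
    rw [h2, Finset.card_insert_of_notMem hqP, pow_succ] at h1
    have h3 := h1.trans_le hP.2
    have h4 : (((divBy A P).filter (fun a => q ∣ a)).card : ℝ) * R * R ^ P.card <
        (divBy A P).card * R ^ P.card := by
      calc _ = (((divBy A P).filter (fun a => q ∣ a)).card : ℝ) * (R ^ P.card * R) := by ring
        _ < _ := h3
    exact (lt_of_mul_lt_mul_right h4 (by positivity)).le
  · have h1 : (divBy A P).filter (fun a => q ∣ a) = ∅ := by
      rw [Finset.filter_eq_empty_iff]
      intro a ha hqa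
      apply hqU
      rw [hU, Finset.mem_biUnion]
      have haA : a ∈ A := (Finset.mem_filter.mp ha).1
      exact ⟨a, haA, Nat.mem_primeFactors.mpr ⟨hq, hqa, hA0 a haA⟩⟩
    rw [h1]
    simp

/-- The number of popular primes is at most `k`. -/
lemma popular_card_le {A P : Finset ℕ} (hA0 : ∀ a ∈ A, a ≠ 0) {k : ℕ}
    (hk : ∀ a ∈ A, a.primeFactors.card ≤ k) (hP : ∀ p ∈ P, p.Prime)
    (hne : (divBy A P).Nonempty) : P.card ≤ k := by
  obtain ⟨a, ha⟩ := hne
  obtain ⟨haA, hdiv⟩ := Finset.mem_filter.mp ha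
  have : P ⊆ a.primeFactors := fun p hp => Nat.mem_primeFactors.mpr ⟨hP p hp, hdiv p hp, hA0 a haA⟩
  exact (Finset.card_le_card this).trans (hk a haA)

/-- The `P`-free part of `x` is determined by the product and the support. -/
lemma bq_eq_prod {P : Finset ℕ} (hP : ∀ p ∈ P, p.Prime) {x y : ℕ} (hx : x ≠ 0) (hy : y ≠ 0)
    (hco : ∀ q, q.Prime → q ∉ P → ¬ (q ∣ x ∧ q ∣ y)) :
    bq P x = ∏ q ∈ x.primeFactors \ P, q ^ (x * y).factorization q := by
  have hprime : ∀ q ∈ x.primeFactors \ P, q.Prime := fun q hq =>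
    Nat.prime_of_mem_primeFactors (Finset.mem_sdiff.mp hq).1
  apply Nat.eq_of_factorization_eq (bq_ne_zero hP hx)
  · rw [Finset.prod_ne_zero_iff]
    intro q hq
    exact pow_ne_zero _ (hprime q hq).ne_zero
  intro r
  rw [bq_factorization hP hx, Nat.factorization_prod (fun q hq => pow_ne_zero _
    (hprime q hq).ne_zero), Finset.sum_apply']
  by_cases hr : r ∈ x.primeFactors \ P
  · rw [Finset.sum_eq_single r]
    · obtain ⟨h1, h2⟩ := Finset.mem_sdiff.mp hr
      rw [if_neg h2, Nat.Prime.factorization_pow (hprime r hr), Finsupp.single_eq_same,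
        Nat.factorization_mul hx hy, Finsupp.add_apply]
      have h3 : y.factorization r = 0 := by
        apply Nat.factorization_eq_zero_of_not_dvd
        intro h4
        exact hco r (hprime r hr) h2 ⟨Nat.dvd_of_mem_primeFactors h1, h4⟩
      omega
    · intro q hq hne
      rw [Nat.Prime.factorization_pow (hprime q hq)]
      exact Finsupp.single_eq_of_ne (Ne.symm hne)
    · intro h; exact absurd hr h
  · rw [Finset.sum_eq_zero]
    · split_ifs with h
      · rfl
      · have : r ∉ x.primeFactors := fun h' => hr (Finset.mem_sdiff.mpr ⟨h', h⟩)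
        rw [← Nat.support_factorization] at this
        exact Finsupp.notMem_support_iff.mp this
    · intro q hq
      rw [Nat.Prime.factorization_pow (hprime q hq)]
      have : q ≠ r := fun h => hr (h ▸ hq)
      exact Finsupp.single_eq_of_ne (Ne.symm this)

/-- Number of coprime pairs with a given product. -/
lemma coprime_rep_le {As P : Finset ℕ} (hP : ∀ p ∈ P, p.Prime) (hA0 : ∀ a ∈ As, a ≠ 0) {k M : ℕ}
    (hk : ∀ a ∈ As, a.primeFactors.card ≤ k)
    (hM : ∀ b, (As.filter (fun x => bq P x = b)).card ≤ M) (n : ℕ) (T : Finset (ℕ × ℕ))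
    (hT : ∀ σ ∈ T, σ.1 ∈ As ∧ σ.2 ∈ As ∧ σ.1 * σ.2 = n ∧
      ∀ q, q.Prime → q ∉ P → ¬ (q ∣ σ.1 ∧ q ∣ σ.2)) : T.card ≤ M * 4 ^ k := by
  classical
  have h1 : T.card ≤ M * (T.image (fun σ => bq P σ.1)).card := by
    apply Finset.card_le_mul_card_image
    intro b _
    have h2 : (T.filter (fun σ => bq P σ.1 = b)).card =
        ((T.filter (fun σ => bq P σ.1 = b)).image Prod.fst).card := by
      symm
      apply Finset.card_image_of_injOn
      intro σ hσ ρ hρ heq
      have hσT := (Finset.mem_filter.mp hσ).1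
      have hρT := (Finset.mem_filter.mp hρ).1
      obtain ⟨s1, _, s3, _⟩ := hT σ hσT
      obtain ⟨_, _, r3, _⟩ := hT ρ hρT
      apply Prod.ext heq
      have h3 : σ.1 * σ.2 = σ.1 * ρ.2 := by rw [s3, ← r3]; rw [heq]
      exact Nat.eq_of_mul_eq_mul_left (Nat.pos_of_ne_zero (hA0 _ s1)) h3
    rw [h2]
    refine le_trans (Finset.card_le_card ?_) (hM b)
    intro x hx
    obtain ⟨σ, hσ, rfl⟩ := Finset.mem_image.mp hx
    obtain ⟨a1, a2⟩ := Finset.mem_filter.mp hσ
    exact Finset.mem_filter.mpr ⟨(hT σ a1).1, a2⟩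
  have h2 : (T.image (fun σ => bq P σ.1)).card ≤ 4 ^ k := by
    rcases T.eq_empty_or_nonempty with hTe | ⟨σ0, hσ0⟩
    · rw [hTe]; simp
    have hsub : T.image (fun σ => bq P σ.1) ⊆
        n.primeFactors.powerset.image (fun S => ∏ q ∈ S, q ^ n.factorization q) := by
      intro b hb
      obtain ⟨σ, hσ, rfl⟩ := Finset.mem_image.mp hb
      obtain ⟨s1, s2, s3, s4⟩ := hT σ hσ
      rw [Finset.mem_image]
      refine ⟨σ.1.primeFactors \ P, ?_, ?_⟩
      · rw [Finset.mem_powerset]
        refine Finset.sdiff_subset.trans ?_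
        apply Nat.primeFactors_mono
        · rw [← s3]; exact dvd_mul_right _ _
        · rw [← s3]; exact mul_ne_zero (hA0 _ s1) (hA0 _ s2)
      · rw [bq_eq_prod hP (hA0 _ s1) (hA0 _ s2) s4, s3]
    obtain ⟨s1, s2, s3, _⟩ := hT σ0 hσ0
    have hn : n.primeFactors.card ≤ 2 * k := by
      rw [← s3, Nat.primeFactors_mul (hA0 _ s1) (hA0 _ s2)]
      have := Finset.card_union_le σ0.1.primeFactors σ0.2.primeFactors
      have e1 := hk _ s1
      have e2 := hk _ s2
      omega
    calc _ ≤ _ := Finset.card_le_card hsub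
      _ ≤ _ := Finset.card_image_le
      _ = 2 ^ n.primeFactors.card := Finset.card_powerset _
      _ ≤ 2 ^ (2 * k) := Nat.pow_le_pow_right (by norm_num) hn
      _ = 4 ^ k := by rw [pow_mul]; norm_num
  calc T.card ≤ _ := h1
    _ ≤ _ := Nat.mul_le_mul_left _ h2

/-- The multiplicative case: all fibres small. -/
lemma mult_case {A1 As P : Finset ℕ} (hsub : As ⊆ A1) (hP : ∀ p ∈ P, p.Prime)
    (hA0 : ∀ a ∈ As, a ≠ 0) {k M : ℕ}
    (hk : ∀ a ∈ As, a.primeFactors.card ≤ k)
    (hM : ∀ b, (As.filter (fun x => bq P x = b)).card ≤ M) {R : ℝ} (hR : 0 < R)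
    (hRk : 4 * (k : ℝ) ≤ R)
    (hpop : ∀ q, q.Prime → q ∉ P → ((A1.filter (fun a => q ∣ a)).card : ℝ) * R ≤ A1.card)
    (hhalf : A1.card ≤ 2 * As.card) :
    (As.card : ℝ) * As.card ≤ 2 * (M * 4 ^ k) *
      ((As ×ˢ As).image (fun σ : ℕ × ℕ => σ.1 * σ.2)).card := by
  classical
  set C := (As ×ˢ As).filter (fun σ : ℕ × ℕ => ∀ q, q.Prime → q ∉ P → ¬ (q ∣ σ.1 ∧ q ∣ σ.2)) with hC
  set N := (As ×ˢ As).filter
    (fun σ : ℕ × ℕ => ¬ ∀ q, q.Prime → q ∉ P → ¬ (q ∣ σ.1 ∧ q ∣ σ.2)) with hN
  have h1 : C.card + N.card = As.card * As.card := by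
    rw [hC, hN, Finset.card_filter_add_card_filter_not, Finset.card_product]
  have hNle : (N.card : ℝ) ≤ 1 / 2 * (As.card * As.card) := by
    have hcov : N ⊆ As.biUnion (fun x => (x.primeFactors \ P).biUnion
        (fun q => (A1.filter (fun a => q ∣ a)).image (fun y => (x, y)))) := by
      intro σ hσ
      obtain ⟨a, b⟩ := Finset.mem_filter.mp hσ
      push Not at b
      obtain ⟨q, hq, hqP, hq1, hq2⟩ := b
      rw [Finset.mem_product] at a
      rw [Finset.mem_biUnion]
      refine ⟨σ.1, a.1, ?_⟩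
      rw [Finset.mem_biUnion]
      refine ⟨q, Finset.mem_sdiff.mpr ⟨Nat.mem_primeFactors.mpr ⟨hq, hq1, hA0 _ a.1⟩, hqP⟩, ?_⟩
      rw [Finset.mem_image]
      exact ⟨σ.2, Finset.mem_filter.mpr ⟨hsub a.2, hq2⟩, rfl⟩
    have h2 : (N.card : ℝ) ≤ ∑ x ∈ As, ∑ q ∈ x.primeFactors \ P, (A1.card : ℝ) / R := by
      calc (N.card : ℝ) ≤ ((∑ x ∈ As, ∑ q ∈ x.primeFactors \ P,
            (A1.filter (fun a => q ∣ a)).card : ℕ) : ℝ) := by
            have := (Finset.card_le_card hcov).trans Finset.card_biUnion_le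
            have h3 : ∑ x ∈ As, ((x.primeFactors \ P).biUnion
              (fun q => (A1.filter (fun a => q ∣ a)).image (fun y => (x, y)))).card ≤
              ∑ x ∈ As, ∑ q ∈ x.primeFactors \ P, (A1.filter (fun a => q ∣ a)).card := by
              apply Finset.sum_le_sum
              intro x _
              refine Finset.card_biUnion_le.trans ?_
              apply Finset.sum_le_sum
              intro q _
              exact Finset.card_image_le
            exact_mod_cast this.trans h3
        _ = ∑ x ∈ As, ∑ q ∈ x.primeFactors \ P, ((A1.filter (fun a => q ∣ a)).card : ℝ) := by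
            push_cast; rfl
        _ ≤ _ := by
            apply Finset.sum_le_sum
            intro x _
            apply Finset.sum_le_sum
            intro q hq
            obtain ⟨e1, e2⟩ := Finset.mem_sdiff.mp hq
            rw [le_div_iff₀ hR]
            exact hpop q (Nat.prime_of_mem_primeFactors e1) e2
    have h3 : ∑ x ∈ As, ∑ q ∈ x.primeFactors \ P, (A1.card : ℝ) / R ≤
        ∑ x ∈ As, (k : ℝ) * ((A1.card : ℝ) / R) := by
      apply Finset.sum_le_sum
      intro x hx
      rw [Finset.sum_const, nsmul_eq_mul]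
      apply mul_le_mul_of_nonneg_right
      · have : (x.primeFactors \ P).card ≤ k :=
          (Finset.card_le_card Finset.sdiff_subset).trans (hk x hx)
        exact_mod_cast this
      · positivity
    rw [Finset.sum_const, nsmul_eq_mul] at h3
    have h4 : (k : ℝ) * ((A1.card : ℝ) / R) ≤ 1 / 2 * As.card := by
      have h5 : (A1.card : ℝ) ≤ 2 * As.card := by exact_mod_cast hhalf
      rw [← mul_div_assoc, div_le_iff₀ hR]
      have h6 : (0 : ℝ) ≤ k := Nat.cast_nonneg _
      have h7 : (0 : ℝ) ≤ As.card := Nat.cast_nonneg _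
      calc (k : ℝ) * A1.card ≤ k * (2 * As.card) := mul_le_mul_of_nonneg_left h5 h6
        _ = 1 / 2 * As.card * (4 * k) := by ring
        _ ≤ _ := mul_le_mul_of_nonneg_left hRk (by positivity)
    calc (N.card : ℝ) ≤ _ := h2
      _ ≤ _ := h3
      _ ≤ As.card * (1 / 2 * As.card) := mul_le_mul_of_nonneg_left h4 (Nat.cast_nonneg _)
      _ = _ := by ring
  have h3 : C.card ≤ (M * 4 ^ k) * (C.image (fun σ : ℕ × ℕ => σ.1 * σ.2)).card := by
    apply Finset.card_le_mul_card_image
    intro n _
    apply coprime_rep_le hP hA0 hk hM n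
    intro σ hσ
    obtain ⟨a, b⟩ := Finset.mem_filter.mp hσ
    obtain ⟨a1, a2⟩ := Finset.mem_filter.mp a
    rw [Finset.mem_product] at a1
    exact ⟨a1.1, a1.2, b, a2⟩
  have h4 : (C.image (fun σ : ℕ × ℕ => σ.1 * σ.2)).card ≤
      ((As ×ˢ As).image (fun σ : ℕ × ℕ => σ.1 * σ.2)).card :=
    Finset.card_le_card (Finset.image_subset_image (Finset.filter_subset _ _))
  have h5 : (C.card : ℝ) ≤ (M * 4 ^ k) *
      ((As ×ˢ As).image (fun σ : ℕ × ℕ => σ.1 * σ.2)).card := by
    exact_mod_cast h3.trans (Nat.mul_le_mul_left _ h4)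
  have h6 : (C.card : ℝ) + N.card = As.card * As.card := by exact_mod_cast h1
  linarith

end Pool.Agent.Helper20.SP
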