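import Mathlib
import Pool.Agent.Helper20.SP.Mult

set_option autoImplicit false
open scoped Pointwise

namespace Pool.Agent.Helper20.SP

/-- The dichotomy with free parameters. -/
theorem dichotomy (A : Finset ℕ) (hA0 : ∀ a ∈ A, a ≠ 0) {k : ℕ}
    (hk : ∀ a ∈ A, a.primeFactors.card ≤ k)
    {R lam : ℝ} (hR : 1 ≤ R) (hRk : 4 * (k : ℝ) ≤ R) (h0 : 0 < lam) (h1 : lam ≤ 1)
    {M Θ J : ℕ} (hM : 1 < lam ^ k * (M + 1)) (hΘ : 2 ≤ Θ)
    (hJ : A.card * A.card < Θ ^ (J + 1))
    (hlam : ((k : ℝ) + 2 * k * (Θ * Real.log A.card) +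
      2 * (4 * Θ * (Real.log A.card) ^ 2)) * lam ≤ 1 / 2) :
    (A.card : ℝ) ^ 2 ≤ 8 * (M * 4 ^ k) * R ^ (2 * k) * (A * A).card ∨
    (A.card : ℝ) ^ 2 * lam ^ (2 * k) ≤ 8 * (2 ^ J * (2 * (J + 1)) ^ k) * R ^ (2 * k) *
      (A + A).card := by
  classical
  rcases A.eq_empty_or_nonempty with hAe | hAne
  · left; rw [hAe]; simp
  obtain ⟨P, hP, hcard, hpop⟩ := exists_popular A hA0 (lt_of_lt_of_le one_pos hR)
  set A1 := divBy A P with hA1
  have hA1sub : A1 ⊆ A := Finset.filter_subset _ _
  have hApos : (0 : ℝ) < A.card := by exact_mod_cast Finset.card_pos.mpr hAne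
  have hA1ne : A1.Nonempty := by
    rw [← Finset.card_pos]
    by_contra h
    have h2 : A1.card = 0 := by omega
    rw [h2] at hcard
    simp at hcard
    exact hAne.ne_empty hcard
  have hPk : P.card ≤ k := popular_card_le hA0 hk hP hA1ne
  have hRpow : R ^ P.card ≤ R ^ k := pow_le_pow_right₀ hR hPk
  have hcard' : (A.card : ℝ) ≤ A1.card * R ^ k :=
    hcard.trans (mul_le_mul_of_nonneg_left hRpow (Nat.cast_nonneg _))
  set As := A1.filter (fun a => (A1.filter (fun x => bq P x = bq P a)).card ≤ M) with hAs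
  set Al := A1.filter (fun a => ¬ (A1.filter (fun x => bq P x = bq P a)).card ≤ M) with hAl
  have hsum : As.card + Al.card = A1.card := by
    rw [hAs, hAl, Finset.card_filter_add_card_filter_not]
  have hRk2 : R ^ (2 * k) = R ^ k * R ^ k := by rw [two_mul, pow_add]
  by_cases hcase : A1.card ≤ 2 * As.card
  · left
    have hAssub : As ⊆ A1 := Finset.filter_subset _ _
    have hAs0 : ∀ a ∈ As, a ≠ 0 := fun a ha => hA0 a (hA1sub (hAssub ha))
    have hfib : ∀ b, (As.filter (fun x => bq P x = b)).card ≤ M := by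
      intro b
      rcases (As.filter (fun x => bq P x = b)).eq_empty_or_nonempty with he | ⟨a, ha⟩
      · rw [he]; simp
      · obtain ⟨haS, hab⟩ := Finset.mem_filter.mp ha
        have h2 := (Finset.mem_filter.mp haS).2
        refine le_trans (Finset.card_le_card ?_) h2
        intro x hx
        obtain ⟨e1, e2⟩ := Finset.mem_filter.mp hx
        exact Finset.mem_filter.mpr ⟨hAssub e1, by rw [e2, hab]⟩
    have h2 := mult_case (A1 := A1) (As := As) (P := P) hAssub hP hAs0
      (fun a ha => hk a (hA1sub (hAssub ha))) hfib (lt_of_lt_of_le one_pos hR) hRk hpop hcase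
    have h3 : (As ×ˢ As).image (fun σ : ℕ × ℕ => σ.1 * σ.2) ⊆ A * A := by
      rw [Finset.mul_def]
      apply Finset.image_subset_image
      exact Finset.product_subset_product (hAssub.trans hA1sub) (hAssub.trans hA1sub)
    have h4 : (((As ×ˢ As).image (fun σ : ℕ × ℕ => σ.1 * σ.2)).card : ℝ) ≤ (A * A).card := by
      exact_mod_cast Finset.card_le_card h3
    have h5 : (A1.card : ℝ) ≤ 2 * As.card := by exact_mod_cast hcase
    have h6 : (A.card : ℝ) ≤ 2 * As.card * R ^ k :=
      hcard'.trans (mul_le_mul_of_nonneg_right h5 (by positivity))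
    calc (A.card : ℝ) ^ 2 ≤ (2 * As.card * R ^ k) ^ 2 :=
          pow_le_pow_left₀ hApos.le h6 2
      _ = 4 * (As.card * As.card) * (R ^ k * R ^ k) := by ring
      _ ≤ 4 * (2 * (M * 4 ^ k) * (A * A).card) * (R ^ k * R ^ k) := by
          apply mul_le_mul_of_nonneg_right _ (by positivity)
          apply mul_le_mul_of_nonneg_left _ (by norm_num)
          refine h2.trans ?_
          exact mul_le_mul_of_nonneg_left h4 (by positivity)
      _ = _ := by rw [hRk2]; ring
  · right
    push Not at hcase
    have hAlsub : Al ⊆ A1 := Finset.filter_subset _ _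
    have hhalf : A1.card ≤ 2 * Al.card := by omega
    -- the number of fibres of Al
    have hfib : (Al.image (bq P)).card * (M + 1) ≤ Al.card := by
      rw [Finset.card_eq_sum_card_image (bq P) Al, ← smul_eq_mul, ← Finset.sum_const]
      apply Finset.sum_le_sum
      intro b hb
      obtain ⟨a, ha, rfl⟩ := Finset.mem_image.mp hb
      have h2 := (Finset.mem_filter.mp ha).2
      push Not at h2
      have h3 : Al.filter (fun x => bq P x = bq P a) = A1.filter (fun x => bq P x = bq P a) := by
        ext x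
        simp only [Finset.mem_filter]
        constructor
        · rintro ⟨e1, e2⟩
          exact ⟨hAlsub e1, e2⟩
        · rintro ⟨e1, e2⟩
          refine ⟨Finset.mem_filter.mpr ⟨e1, ?_⟩, e2⟩
          rw [e2]
          exact not_le.mpr h2
      rw [h3]
      exact h2
    have hAlne : 0 < Al.card := by
      have := Finset.card_pos.mpr hA1ne
      omega
    have hlamP : lam ^ k ≤ lam ^ P.card := pow_le_pow_of_le_one h0.le h1 hPk
    have hAl0 : ∀ x ∈ Al, x ≠ 0 := fun x hx => hA0 x (hA1sub (hAlsub hx))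
    have hlt : ((Al.image (bq P)).card : ℝ) < lam ^ P.card * Al.card := by
      have e1 : ((Al.image (bq P)).card : ℝ) * (M + 1) ≤ Al.card := by exact_mod_cast hfib
      have e2 : (0 : ℝ) < Al.card := by exact_mod_cast hAlne
      have e3 : (0 : ℝ) < (M : ℝ) + 1 := by positivity
      have e4 : ((Al.image (bq P)).card : ℝ) ≤ Al.card / (M + 1) := by
        rw [le_div_iff₀ e3]; exact e1
      refine lt_of_le_of_lt e4 ?_
      rw [div_lt_iff₀ e3]
      calc (Al.card : ℝ) = 1 * Al.card := (one_mul _).symm
        _ < (lam ^ k * (M + 1)) * Al.card := mul_lt_mul_of_pos_right hM e2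
        _ ≤ (lam ^ P.card * (M + 1)) * Al.card := by
            apply mul_le_mul_of_nonneg_right _ e2.le
            exact mul_le_mul_of_nonneg_right hlamP e3.le
        _ = _ := by ring
    obtain ⟨D, hD, Q, hQ, hQne, hspread, hDcard⟩ := spreading h0 h1 P.card P Al rfl hP hAl0 hlt
    have hDA : D ⊆ A := hD.trans (hAlsub.trans hA1sub)
    have hDle : D.card ≤ A.card := Finset.card_le_card hDA
    have hQk : Q.card ≤ k := (Finset.card_le_card hQ).trans hPk
    have hDpos : 0 < D.card := by
      by_contra h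
      have : D.card = 0 := by omega
      rw [this] at hDcard
      have e2 : (0 : ℝ) < Al.card := by exact_mod_cast hAlne
      have : (0 : ℝ) < lam ^ P.card * Al.card := by positivity
      simp at hDcard
      linarith
    have hlogle : Real.log D.card ≤ Real.log A.card := by
      apply Real.log_le_log
      · exact_mod_cast hDpos
      · exact_mod_cast hDle
    have hlogD : 0 ≤ Real.log D.card := Real.log_natCast_nonneg _
    have hQkR : (Q.card : ℝ) ≤ k := by exact_mod_cast hQk
    have hadd := additive (lam := lam) (D := D) (Q := Q) (fun p hp => hP p (hQ hp)) hQne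
      (fun x hx => hA0 x (hDA hx)) hΘ (J := J)
      (lt_of_le_of_lt (Nat.mul_le_mul hDle hDle) hJ) hspread (by
        refine le_trans ?_ hlam
        apply mul_le_mul_of_nonneg_right _ h0.le
        have t1 : (Q.card : ℝ) * (Θ * Real.log D.card) ≤ k * (Θ * Real.log A.card) := by
          apply mul_le_mul hQkR _ (by positivity) (by positivity)
          exact mul_le_mul_of_nonneg_left hlogle (Nat.cast_nonneg _)
        have t2 : (Real.log D.card) ^ 2 ≤ (Real.log A.card) ^ 2 :=
          pow_le_pow_left₀ hlogD hlogle 2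
        have t3 : 4 * (Θ : ℝ) * (Real.log D.card) ^ 2 ≤ 4 * Θ * (Real.log A.card) ^ 2 :=
          mul_le_mul_of_nonneg_left t2 (by positivity)
        nlinarith)
    have h3 : (D ×ˢ D).image (fun σ : ℕ × ℕ => σ.1 + σ.2) ⊆ A + A := by
      rw [Finset.add_def]
      apply Finset.image_subset_image
      exact Finset.product_subset_product hDA hDA
    have h4 : (((D ×ˢ D).image (fun σ : ℕ × ℕ => σ.1 + σ.2)).card : ℝ) ≤ (A + A).card := by
      exact_mod_cast Finset.card_le_card h3
    have h5 : (A1.card : ℝ) ≤ 2 * Al.card := by exact_mod_cast hhalf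
    have h6 : (A.card : ℝ) ≤ 2 * Al.card * R ^ k :=
      hcard'.trans (mul_le_mul_of_nonneg_right h5 (by positivity))
    have h7 : lam ^ k * Al.card ≤ D.card :=
      (mul_le_mul_of_nonneg_right hlamP (Nat.cast_nonneg _)).trans hDcard
    have h8 : (A.card : ℝ) * lam ^ k ≤ 2 * D.card * R ^ k := by
      calc (A.card : ℝ) * lam ^ k ≤ (2 * Al.card * R ^ k) * lam ^ k :=
            mul_le_mul_of_nonneg_right h6 (by positivity)
        _ = 2 * (lam ^ k * Al.card) * R ^ k := by ring
        _ ≤ _ := by
            apply mul_le_mul_of_nonneg_right _ (by positivity)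
            exact mul_le_mul_of_nonneg_left h7 (by norm_num)
    have h9 : (2 : ℝ) ^ J * (2 * (J + 1)) ^ Q.card ≤ 2 ^ J * (2 * (J + 1)) ^ k := by
      apply mul_le_mul_of_nonneg_left _ (by positivity)
      apply pow_le_pow_right₀ _ hQk
      have : (0 : ℝ) ≤ J := Nat.cast_nonneg _
      linarith
    calc (A.card : ℝ) ^ 2 * lam ^ (2 * k) = (A.card * lam ^ k) ^ 2 := by
          rw [mul_pow, ← pow_mul, mul_comm k 2]
      _ ≤ (2 * D.card * R ^ k) ^ 2 := pow_le_pow_left₀ (by positivity) h8 2
      _ = 4 * (D.card * D.card) * (R ^ k * R ^ k) := by ring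
      _ ≤ 4 * (2 * (2 ^ J * (2 * (J + 1)) ^ k) * (A + A).card) * (R ^ k * R ^ k) := by
          apply mul_le_mul_of_nonneg_right _ (by positivity)
          apply mul_le_mul_of_nonneg_left _ (by norm_num)
          refine hadd.trans ?_
          apply mul_le_mul _ h4 (Nat.cast_nonneg _) (by positivity)
          exact mul_le_mul_of_nonneg_left h9 (by norm_num)
      _ = _ := by rw [hRk2]; ring

end Pool.Agent.Helper20.SP
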