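import Mathlib
import Pool.Agent.Helper20.SP.Dichotomy

set_option autoImplicit false
open scoped Pointwise

namespace Pool.Agent.Helper20.SP

/-- The numerical inequalities behind the choice of parameters. -/
lemma numerics {ε L ℓ k : ℝ} (hε : 0 < ε) (hε1 : ε ≤ 1) (hk : 1 ≤ k) (hℓ : ℓ = Real.log L)
    (hℓ1 : 1 ≤ ℓ) (hLε : 8 ≤ ε * L) (hkL : k * ℓ ≤ ε ^ 2 / 400 * L) :
    Real.log (44 * k * L ^ 2) ≤ ε * L / (16 * k) ∧
    Real.log 16 + k * Real.log 4 ≤ 5 / 8 * (ε * L) ∧
    Real.log 8 + (32 * k / ε) * Real.log 2 + k * Real.log (66 * k / ε) ≤ ε * L / 2 := by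
  have hL : 0 < L := by
    by_contra h
    push Not at h
    nlinarith
  have hk0 : 0 < k := by linarith
  have hkℓ : k ≤ k * ℓ := by nlinarith
  have hε2 : ε ^ 2 ≤ ε := by nlinarith
  have hkL' : k ≤ L := by
    have : ε ^ 2 / 400 * L ≤ 1 * L := by
      apply mul_le_mul_of_nonneg_right _ hL.le
      nlinarith
    linarith
  have hlogk : Real.log k ≤ ℓ := by
    rw [hℓ]; exact Real.log_le_log hk0 hkL'
  have hlog2 : Real.log 2 < 0.6931471808 := Real.log_two_lt_d9
  have hlog2' : 0.6931471803 < Real.log 2 := Real.log_two_gt_d9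
  have hlog4 : Real.log 4 = 2 * Real.log 2 := by
    rw [show (4 : ℝ) = 2 ^ 2 by norm_num, Real.log_pow]; norm_num
  have hlog8 : Real.log 8 = 3 * Real.log 2 := by
    rw [show (8 : ℝ) = 2 ^ 3 by norm_num, Real.log_pow]; norm_num
  have hlog16 : Real.log 16 = 4 * Real.log 2 := by
    rw [show (16 : ℝ) = 2 ^ 4 by norm_num, Real.log_pow]; norm_num
  have hlog44 : Real.log 44 ≤ 6 * Real.log 2 := by
    have : Real.log 44 ≤ Real.log (2 ^ 6) := Real.log_le_log (by norm_num) (by norm_num)
    rw [Real.log_pow] at this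
    exact_mod_cast this
  have hkεL : k * ℓ * 400 ≤ ε ^ 2 * L := by linarith
  refine ⟨?_, ?_, ?_⟩
  · rw [Real.log_mul (by positivity) (by positivity), Real.log_mul (by norm_num) hk0.ne',
      Real.log_pow, ← hℓ]
    rw [le_div_iff₀ (by positivity)]
    push_cast
    have h1 : Real.log 44 + Real.log k + 2 * ℓ ≤ 8 * ℓ := by nlinarith
    calc (Real.log 44 + Real.log k + 2 * ℓ) * (16 * k) ≤ (8 * ℓ) * (16 * k) :=
          mul_le_mul_of_nonneg_right h1 (by positivity)
      _ = 128 * (k * ℓ) := by ring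
      _ ≤ 400 * (k * ℓ) := by nlinarith
      _ ≤ ε ^ 2 * L := by linarith
      _ ≤ ε * L := mul_le_mul_of_nonneg_right hε2 hL.le
  · rw [hlog16, hlog4]
    have h1 : k * 400 ≤ ε * L := by
      calc k * 400 ≤ k * ℓ * 400 := by linarith
        _ ≤ ε ^ 2 * L := hkεL
        _ ≤ ε * L := mul_le_mul_of_nonneg_right hε2 hL.le
    nlinarith
  · rw [hlog8]
    have h1 : Real.log (66 * k / ε) ≤ 66 / ε + ℓ := by
      have e : 66 * k / ε = (66 / ε) * k := by ring
      rw [e, Real.log_mul (by positivity) hk0.ne']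
      have h2 : Real.log (66 / ε) ≤ 66 / ε - 1 := Real.log_le_sub_one_of_pos (by positivity)
      linarith
    have h2 : k * Real.log (66 * k / ε) ≤ k * (66 / ε + ℓ) := mul_le_mul_of_nonneg_left h1 hk0.le
    have h3 : (32 * k / ε) * Real.log 2 ≤ (32 * k / ε) * (0.7 : ℝ) :=
      mul_le_mul_of_nonneg_left (by linarith) (by positivity)
    -- k/ε ≤ εL/400
    have h4 : k / ε ≤ ε * L / 400 := by
      rw [div_le_iff₀ hε]
      nlinarith
    have h5 : k * ℓ ≤ ε * L / 400 := by
      have : ε ^ 2 * L ≤ ε * L := mul_le_mul_of_nonneg_right hε2 hL.le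
      linarith
    have e1 : (32 * k / ε) * (0.7 : ℝ) = 22.4 * (k / ε) := by ring
    have e2 : k * (66 / ε + ℓ) = 66 * (k / ε) + k * ℓ := by ring
    rw [e1] at h3
    rw [e2] at h2
    nlinarith

lemma sum_bound {k Θ L E : ℝ} (hk : 1 ≤ k) (hL : 1 ≤ L) (hΘ : 1 ≤ Θ) (hΘE : Θ ≤ 2 * E) :
    k + 2 * k * (Θ * L) + 2 * (4 * Θ * L ^ 2) ≤ 22 * k * L ^ 2 * E := by
  have a3 : L ≤ L ^ 2 := by nlinarith
  have a4 : 1 ≤ L ^ 2 := by nlinarith
  have hX : 1 ≤ Θ * L ^ 2 := by nlinarith
  have b1 : k ≤ k * (Θ * L ^ 2) := le_mul_of_one_le_right (by linarith) hX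
  have b2 : k * (Θ * L) ≤ k * (Θ * L ^ 2) := by
    apply mul_le_mul_of_nonneg_left _ (by linarith)
    exact mul_le_mul_of_nonneg_left a3 (by linarith)
  have b3 : Θ * L ^ 2 ≤ k * (Θ * L ^ 2) := le_mul_of_one_le_left (by linarith) hk
  have b4 : k * (Θ * L ^ 2) ≤ k * (2 * E * L ^ 2) := by
    apply mul_le_mul_of_nonneg_left _ (by linarith)
    exact mul_le_mul_of_nonneg_right hΘE (by positivity)
  have e1 : 2 * k * (Θ * L) = 2 * (k * (Θ * L)) := by ring
  have e2 : 2 * (4 * Θ * L ^ 2) = 8 * (Θ * L ^ 2) := by ring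
  have e3 : 22 * k * L ^ 2 * E = 11 * (k * (2 * E * L ^ 2)) := by ring
  rw [e1, e2, e3]
  linarith

/-- The version for sets of positive integers. -/
theorem nat_version {ε : ℝ} (hε : 0 < ε) (hε1 : ε ≤ 1) (A : Finset ℕ) (hA0 : ∀ a ∈ A, a ≠ 0)
    (hbig : 640000 / ε ^ 4 ≤ Real.log A.card)
    (hω : ∀ a ∈ A, (a.primeFactors.card : ℝ) * Real.log (Real.log A.card) ≤
      ε ^ 2 / 400 * Real.log A.card) :
    (A.card : ℝ) ^ (2 - ε) ≤ ((max (A + A).card (A * A).card : ℕ) : ℝ) := by
  set L := Real.log A.card with hL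
  set ℓ := Real.log L with hℓ
  have hL0 : 640000 ≤ L := by
    refine le_trans ?_ hbig
    rw [le_div_iff₀ (by positivity)]
    have : ε ^ 4 ≤ 1 := pow_le_one₀ hε.le hε1
    linarith
  have hLpos : 0 < L := by linarith
  have hcard : (A.card : ℝ) = Real.exp L := by
    rw [hL, Real.exp_log]
    by_contra h
    push Not at h
    have h0 : (A.card : ℝ) = 0 := le_antisymm h (Nat.cast_nonneg _)
    rw [hL, h0, Real.log_zero] at hLpos
    exact lt_irrefl _ hLpos
  have hℓ1 : 1 ≤ ℓ := by
    rw [hℓ, Real.le_log_iff_exp_le hLpos]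
    have := Real.exp_one_lt_d9
    linarith
  have hLε : 8 ≤ ε * L := by
    have h1 : 640000 / ε ^ 4 * ε ≤ L * ε := mul_le_mul_of_nonneg_right hbig hε.le
    have h2 : (8 : ℝ) ≤ 640000 / ε ^ 4 * ε := by
      have e : 640000 / ε ^ 4 * ε = 640000 / ε ^ 3 := by
        field_simp
      rw [e, le_div_iff₀ (by positivity)]
      have : ε ^ 3 ≤ 1 := pow_le_one₀ hε.le hε1
      linarith
    linarith
  -- log L ≤ ε²/400 L
  have hℓL : ℓ ≤ ε ^ 2 / 400 * L := by
    have h1 : ℓ ≤ 2 * Real.sqrt L := by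
      have h2 : Real.log (Real.sqrt L) ≤ Real.sqrt L - 1 :=
        Real.log_le_sub_one_of_pos (Real.sqrt_pos.mpr hLpos)
      rw [Real.log_sqrt hLpos.le] at h2
      linarith
    have h2 : 800 / ε ^ 2 ≤ Real.sqrt L := by
      apply Real.le_sqrt_of_sq_le
      refine le_trans (le_of_eq ?_) hbig
      field_simp
      norm_num
    have h3 : Real.sqrt L * Real.sqrt L = L := Real.mul_self_sqrt hLpos.le
    have h4 : 800 ≤ Real.sqrt L * ε ^ 2 := by
      rwa [div_le_iff₀ (by positivity)] at h2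
    have h5 : 0 ≤ Real.sqrt L := Real.sqrt_nonneg _
    nlinarith
  -- the number of primes
  set k0 := A.sup (fun a => a.primeFactors.card) with hk0
  set k := max k0 1 with hk
  have hk1 : 1 ≤ k := le_max_right _ _
  have hkω : ∀ a ∈ A, a.primeFactors.card ≤ k := fun a ha =>
    (Finset.le_sup (f := fun a : ℕ => a.primeFactors.card) ha).trans (le_max_left _ _)
  have hAne : A.Nonempty := by
    rw [← Finset.card_pos]
    by_contra h
    have : A.card = 0 := by omega
    rw [hL, this] at hLpos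
    simp at hLpos
  have hkL : (k : ℝ) * ℓ ≤ ε ^ 2 / 400 * L := by
    rcases le_total k0 1 with h | h
    · have : k = 1 := by rw [hk]; exact max_eq_right h
      rw [this]; simpa using hℓL
    · have : k = k0 := by rw [hk]; exact max_eq_left h
      rw [this]
      obtain ⟨a, ha, hak⟩ := Finset.exists_mem_eq_sup A hAne (fun a => a.primeFactors.card)
      rw [hk0, hak]
      exact hω a ha
  have hkR : (1 : ℝ) ≤ k := by exact_mod_cast hk1
  have hkpos : (0 : ℝ) < k := by linarith
  obtain ⟨n1, n2, n3⟩ := numerics hε hε1 hkR hℓ hℓ1 hLε hkL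
  -- parameters
  set E := Real.exp (ε * L / (16 * k)) with hE
  set R := Real.exp (ε * L / (8 * k)) with hR
  set lam := Real.exp (-(ε * L / (8 * k))) with hlam
  set Θ := ⌈E⌉₊ with hΘ
  set M := ⌈Real.exp (ε * L / 8)⌉₊ with hM
  set J := ⌊32 * (k : ℝ) / ε⌋₊ with hJ
  have hexp0 : 0 < ε * L / (16 * k) := by positivity
  have hE1 : 1 < E := by rw [hE]; exact Real.one_lt_exp_iff.mpr hexp0
  have hE44 : 44 * k * L ^ 2 ≤ E := by
    rw [hE, ← Real.log_le_iff_le_exp (by positivity)]
    exact n1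
  have hRE : R = E * E := by
    rw [hR, hE, ← Real.exp_add]
    congr 1
    field_simp
    ring
  have hlamE : lam * (E * E) = 1 := by
    rw [← hRE, hlam, hR, ← Real.exp_add]
    simp
  have hR1 : 1 ≤ R := by rw [hRE]; nlinarith
  have hL2 : 1 ≤ L ^ 2 := one_le_pow₀ (by linarith)
  have hRk : 4 * (k : ℝ) ≤ R := by
    rw [hRE]
    have h1 : (k : ℝ) ≤ k * L ^ 2 := le_mul_of_one_le_right hkpos.le hL2
    have h2 : E ≤ E * E := by nlinarith
    linarith
  have hlam0 : 0 < lam := Real.exp_pos _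
  have hlam1 : lam ≤ 1 := by
    rw [hlam]
    apply Real.exp_le_one_iff.mpr
    have : 0 < ε * L / (8 * k) := by positivity
    linarith
  have hlamk : lam ^ k = Real.exp (-(ε * L / 8)) := by
    rw [hlam, ← Real.exp_nat_mul]
    congr 1
    field_simp
  have hRk2 : R ^ (2 * k) = Real.exp (ε * L / 4) := by
    rw [hR, ← Real.exp_nat_mul]
    congr 1
    push_cast
    field_simp
    ring
  have hMlow : Real.exp (ε * L / 8) ≤ M := Nat.le_ceil _
  have hMup : (M : ℝ) ≤ 2 * Real.exp (ε * L / 8) := by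
    have h1 : (M : ℝ) < Real.exp (ε * L / 8) + 1 := Nat.ceil_lt_add_one (Real.exp_pos _).le
    have h2 : 1 ≤ Real.exp (ε * L / 8) := Real.one_le_exp (by positivity)
    linarith
  have hMcond : 1 < lam ^ k * (M + 1) := by
    rw [hlamk]
    calc (1 : ℝ) = Real.exp (-(ε * L / 8)) * Real.exp (ε * L / 8) := by
          rw [← Real.exp_add]; simp
      _ < Real.exp (-(ε * L / 8)) * (M + 1) := by
          apply mul_lt_mul_of_pos_left _ (Real.exp_pos _)
          linarith
  have hΘlow : E ≤ Θ := Nat.le_ceil _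
  have hΘup : (Θ : ℝ) ≤ 2 * E := by
    have h1 : (Θ : ℝ) < E + 1 := Nat.ceil_lt_add_one (by linarith)
    linarith
  have hΘ2 : 2 ≤ Θ := by
    have h1 : (1 : ℝ) < Θ := lt_of_lt_of_le hE1 hΘlow
    have : 1 < Θ := by exact_mod_cast h1
    omega
  have hJlow : 32 * (k : ℝ) / ε < J + 1 := Nat.lt_floor_add_one _
  have hJup : (J : ℝ) ≤ 32 * (k : ℝ) / ε := Nat.floor_le (by positivity)
  have hJcond : A.card * A.card < Θ ^ (J + 1) := by
    have h1 : (A.card : ℝ) * A.card < (Θ : ℝ) ^ (J + 1) := by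
      calc (A.card : ℝ) * A.card = Real.exp (2 * L) := by
            rw [hcard, ← Real.exp_add]; congr 1; ring
        _ < Real.exp (((J + 1 : ℕ) : ℝ) * (ε * L / (16 * k))) := by
            apply Real.exp_lt_exp.mpr
            push_cast
            have h2 : 32 * (k : ℝ) / ε * (ε * L / (16 * k)) = 2 * L := by
              field_simp
              ring
            rw [← h2]
            exact mul_lt_mul_of_pos_right hJlow hexp0
        _ = E ^ (J + 1) := by rw [Real.exp_nat_mul]
        _ ≤ _ := pow_le_pow_left₀ (by linarith) hΘlow _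
    exact_mod_cast h1
  have hlamcond : ((k : ℝ) + 2 * k * (Θ * L) + 2 * (4 * Θ * L ^ 2)) * lam ≤ 1 / 2 := by
    have h1 : (k : ℝ) + 2 * k * (Θ * L) + 2 * (4 * Θ * L ^ 2) ≤ 22 * k * L ^ 2 * E :=
      sum_bound hkR (by linarith) (by linarith) hΘup
    calc _ ≤ (22 * k * L ^ 2 * E) * lam := mul_le_mul_of_nonneg_right h1 hlam0.le
      _ = 1 / 2 * ((44 * k * L ^ 2) * (E * lam)) := by ring
      _ ≤ 1 / 2 * (E * (E * lam)) := by
          apply mul_le_mul_of_nonneg_left _ (by norm_num)
          exact mul_le_mul_of_nonneg_right hE44 (by positivity)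
      _ = 1 / 2 * (lam * (E * E)) := by ring
      _ = 1 / 2 := by rw [hlamE, mul_one]
  have hpow : (A.card : ℝ) ^ (2 - ε) = Real.exp (2 * L) * Real.exp (-(ε * L)) := by
    rw [hcard, ← Real.exp_mul, ← Real.exp_add]
    congr 1
    ring
  have hsq : (A.card : ℝ) ^ 2 = Real.exp (2 * L) := by
    rw [hcard, ← Real.exp_nat_mul]; push_cast; rfl
  rcases dichotomy A hA0 hkω hR1 hRk hlam0 hlam1 hMcond hΘ2 hJcond hlamcond with h | h
  · -- product set large
    rw [hsq, hRk2] at h
    have h4k : (4 : ℝ) ^ k = Real.exp (k * Real.log 4) := by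
      rw [Real.exp_nat_mul, Real.exp_log (by norm_num)]
    have h1 : 8 * ((M : ℝ) * 4 ^ k) * Real.exp (ε * L / 4) ≤ Real.exp (ε * L) := by
      calc 8 * ((M : ℝ) * 4 ^ k) * Real.exp (ε * L / 4)
          ≤ 8 * ((2 * Real.exp (ε * L / 8)) * 4 ^ k) * Real.exp (ε * L / 4) := by
            apply mul_le_mul_of_nonneg_right _ (Real.exp_pos _).le
            apply mul_le_mul_of_nonneg_left _ (by norm_num)
            exact mul_le_mul_of_nonneg_right hMup (by positivity)
        _ = Real.exp (Real.log 16) * Real.exp (ε * L / 8) * Real.exp (k * Real.log 4) *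
              Real.exp (ε * L / 4) := by
            rw [h4k, Real.exp_log (by norm_num)]; ring
        _ = Real.exp (Real.log 16 + ε * L / 8 + k * Real.log 4 + ε * L / 4) := by
            rw [← Real.exp_add, ← Real.exp_add, ← Real.exp_add]
        _ ≤ _ := by
            apply Real.exp_le_exp.mpr
            linarith
    have h2 : Real.exp (2 * L) ≤ Real.exp (ε * L) * (A * A).card := by
      calc _ ≤ _ := h
        _ ≤ _ := mul_le_mul_of_nonneg_right h1 (Nat.cast_nonneg _)
    have h3 : Real.exp (2 * L) * Real.exp (-(ε * L)) ≤ (A * A).card := by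
      calc _ ≤ (Real.exp (ε * L) * (A * A).card) * Real.exp (-(ε * L)) :=
            mul_le_mul_of_nonneg_right h2 (Real.exp_pos _).le
        _ = (Real.exp (ε * L) * Real.exp (-(ε * L))) * (A * A).card := by ring
        _ = (A * A).card := by rw [← Real.exp_add]; simp
    rw [hpow]
    refine h3.trans ?_
    exact_mod_cast le_max_right _ _
  · -- sum set large
    have hlam2k : lam ^ (2 * k) = Real.exp (-(ε * L / 4)) := by
      rw [hlam, ← Real.exp_nat_mul]
      congr 1
      push_cast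
      field_simp
      ring
    rw [hsq, hRk2, hlam2k] at h
    have h1 : 8 * ((2 : ℝ) ^ J * (2 * (J + 1)) ^ k) ≤ Real.exp (ε * L / 2) := by
      have a1 : (2 : ℝ) ^ J = Real.exp (J * Real.log 2) := by
        rw [Real.exp_nat_mul, Real.exp_log (by norm_num)]
      have a2 : (2 * ((J : ℝ) + 1)) ^ k ≤ Real.exp (k * Real.log (66 * k / ε)) := by
        rw [Real.exp_nat_mul, Real.exp_log (by positivity)]
        apply pow_le_pow_left₀ (by positivity)
        have b1 : (1 : ℝ) ≤ k / ε := by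
          rw [le_div_iff₀ hε]; linarith
        have b2 : 32 * (k : ℝ) / ε = 32 * (k / ε) := by ring
        have b3 : 66 * (k : ℝ) / ε = 66 * (k / ε) := by ring
        rw [b2] at hJup
        rw [b3]
        linarith
      calc 8 * ((2 : ℝ) ^ J * (2 * (J + 1)) ^ k)
          ≤ 8 * (Real.exp ((32 * k / ε) * Real.log 2) * Real.exp (k * Real.log (66 * k / ε))) := by
            apply mul_le_mul_of_nonneg_left _ (by norm_num)
            apply mul_le_mul _ a2 (by positivity) (Real.exp_pos _).le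
            rw [a1]
            apply Real.exp_le_exp.mpr
            exact mul_le_mul_of_nonneg_right hJup (Real.log_nonneg (by norm_num))
        _ = Real.exp (Real.log 8) * (Real.exp ((32 * k / ε) * Real.log 2) *
              Real.exp (k * Real.log (66 * k / ε))) := by
            rw [Real.exp_log (by norm_num)]
        _ = Real.exp (Real.log 8 + (32 * k / ε) * Real.log 2 + k * Real.log (66 * k / ε)) := by
            rw [← Real.exp_add, ← Real.exp_add]; congr 1; ring
        _ ≤ _ := Real.exp_le_exp.mpr n3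
    have h2 : Real.exp (2 * L) * Real.exp (-(ε * L / 4)) ≤
        Real.exp (ε * L / 2) * Real.exp (ε * L / 4) * (A + A).card := by
      refine h.trans ?_
      apply mul_le_mul_of_nonneg_right _ (Nat.cast_nonneg _)
      exact mul_le_mul_of_nonneg_right h1 (Real.exp_pos _).le
    have h3 : Real.exp (2 * L) * Real.exp (-(ε * L)) ≤ (A + A).card := by
      have e1 : Real.exp (2 * L) * Real.exp (-(ε * L)) =
          (Real.exp (2 * L) * Real.exp (-(ε * L / 4))) * Real.exp (-(3 * (ε * L) / 4)) := by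
        rw [mul_assoc, ← Real.exp_add (-(ε * L / 4))]
        congr 2
        ring
      have e2 : Real.exp (ε * L / 2) * Real.exp (ε * L / 4) * Real.exp (-(3 * (ε * L) / 4)) = 1 := by
        rw [← Real.exp_add, ← Real.exp_add]
        rw [show ε * L / 2 + ε * L / 4 + -(3 * (ε * L) / 4) = 0 by ring, Real.exp_zero]
      rw [e1]
      calc _ ≤ (Real.exp (ε * L / 2) * Real.exp (ε * L / 4) * (A + A).card) *
            Real.exp (-(3 * (ε * L) / 4)) := mul_le_mul_of_nonneg_right h2 (Real.exp_pos _).le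
        _ = (Real.exp (ε * L / 2) * Real.exp (ε * L / 4) * Real.exp (-(3 * (ε * L) / 4))) *
            (A + A).card := by ring
        _ = (A + A).card := by rw [e2, one_mul]
    rw [hpow]
    refine h3.trans ?_
    exact_mod_cast le_max_left _ _

end Pool.Agent.Helper20.SP
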