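import Mathlib
import Pool.Agent.Helper20.SP.Final

set_option autoImplicit false
open scoped Pointwise

namespace Pool.Agent.Helper20.SP

/-- Transfer from a set of natural numbers to a set of integers. -/
lemma transfer {ε : ℝ} (hε : 0 < ε) (hε1 : ε ≤ 1) (A : Finset ℤ) (B : Finset ℕ) (σ : ℤ)
    (hσ : σ = 1 ∨ σ = -1) (hB0 : ∀ b ∈ B, b ≠ 0) (hBA : ∀ b ∈ B, σ * (b : ℤ) ∈ A)
    (hcard : A.card ≤ 3 * B.card) (h9 : 9 ≤ A.card)
    (hbig : 640000 / ε ^ 4 ≤ Real.log B.card)
    (hω : ∀ a ∈ A, a ≠ 0 → (a.natAbs.primeFactors.card : ℝ) * Real.log (Real.log A.card) ≤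
      ε ^ 2 / 800 * Real.log A.card) :
    (1 / 9 : ℝ) * (A.card : ℝ) ^ (2 - ε) ≤ ((max (A + A).card (A * A).card : ℕ) : ℝ) := by
  have hσ0 : σ ≠ 0 := by rcases hσ with h | h <;> rw [h] <;> norm_num
  have hσσ : σ * σ = 1 := by rcases hσ with h | h <;> rw [h] <;> norm_num
  have hinj : Function.Injective (fun b : ℕ => σ * (b : ℤ)) := by
    intro a b hab
    have := mul_left_cancel₀ hσ0 hab
    exact_mod_cast this
  have hBcardA : B.card ≤ A.card := by
    rw [← Finset.card_image_of_injective B hinj]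
    apply Finset.card_le_card
    intro x hx
    obtain ⟨b, hb, rfl⟩ := Finset.mem_image.mp hx
    exact hBA b hb
  have hBpos : 0 < B.card := by omega
  have hBR : (0 : ℝ) < B.card := by exact_mod_cast hBpos
  have hAR : (9 : ℝ) ≤ A.card := by exact_mod_cast h9
  have hlogB : 1 ≤ Real.log B.card := by
    refine le_trans ?_ hbig
    rw [le_div_iff₀ (by positivity)]
    have : ε ^ 4 ≤ 1 := pow_le_one₀ hε.le hε1
    linarith
  have hlogBA : Real.log B.card ≤ Real.log A.card :=
    Real.log_le_log hBR (by exact_mod_cast hBcardA)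
  have hlogAB : Real.log A.card ≤ 2 * Real.log B.card := by
    have h1 : Real.log (A.card : ℝ) ≤ Real.log (3 * B.card) := by
      apply Real.log_le_log (by linarith)
      exact_mod_cast hcard
    rw [Real.log_mul (by norm_num) hBR.ne'] at h1
    have h2 : Real.log 3 ≤ Real.log B.card := by
      have h3 : (640000 : ℝ) ≤ Real.log B.card := by
        refine le_trans ?_ hbig
        rw [le_div_iff₀ (by positivity)]
        have : ε ^ 4 ≤ 1 := pow_le_one₀ hε.le hε1
        linarith
      have h4 : Real.log 3 ≤ 3 - 1 := Real.log_le_sub_one_of_pos (by norm_num)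
      linarith
    linarith
  have hB : (B.card : ℝ) ^ (2 - ε) ≤ ((max (B + B).card (B * B).card : ℕ) : ℝ) := by
    apply nat_version hε hε1 B hB0 hbig
    intro b hb
    have h1 := hω _ (hBA b hb) (by
      apply mul_ne_zero hσ0
      exact_mod_cast hB0 b hb)
    have h2 : (σ * (b : ℤ)).natAbs = b := by
      rcases hσ with h | h <;> rw [h] <;> simp
    rw [h2] at h1
    have h3 : Real.log (Real.log B.card) ≤ Real.log (Real.log A.card) :=
      Real.log_le_log (by linarith) hlogBA
    calc (b.primeFactors.card : ℝ) * Real.log (Real.log B.card)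
        ≤ b.primeFactors.card * Real.log (Real.log A.card) :=
          mul_le_mul_of_nonneg_left h3 (Nat.cast_nonneg _)
      _ ≤ ε ^ 2 / 800 * Real.log A.card := h1
      _ ≤ ε ^ 2 / 800 * (2 * Real.log B.card) :=
          mul_le_mul_of_nonneg_left hlogAB (by positivity)
      _ = _ := by ring
  have hadd : (B + B).card ≤ (A + A).card := by
    rw [← Finset.card_image_of_injective (B + B) hinj]
    apply Finset.card_le_card
    intro x hx
    obtain ⟨s, hs, rfl⟩ := Finset.mem_image.mp hx
    obtain ⟨b, hb, b', hb', rfl⟩ := Finset.mem_add.mp hs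
    have : σ * ((b + b' : ℕ) : ℤ) = σ * b + σ * b' := by push_cast; ring
    simp only [this]
    exact Finset.add_mem_add (hBA b hb) (hBA b' hb')
  have hmul : (B * B).card ≤ (A * A).card := by
    rw [← Finset.card_image_of_injective (B * B) (f := fun b : ℕ => (b : ℤ))
      Nat.cast_injective]
    apply Finset.card_le_card
    intro x hx
    obtain ⟨s, hs, rfl⟩ := Finset.mem_image.mp hx
    obtain ⟨b, hb, b', hb', rfl⟩ := Finset.mem_mul.mp hs
    have : ((b * b' : ℕ) : ℤ) = (σ * b) * (σ * b') := by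
      push_cast
      calc (b : ℤ) * b' = (σ * σ) * (b * b') := by rw [hσσ, one_mul]
        _ = _ := by ring
    simp only [this]
    exact Finset.mul_mem_mul (hBA b hb) (hBA b' hb')
  have hmax : ((max (B + B).card (B * B).card : ℕ) : ℝ) ≤
      ((max (A + A).card (A * A).card : ℕ) : ℝ) := by
    exact_mod_cast max_le_max hadd hmul
  refine le_trans ?_ (hB.trans hmax)
  have h1 : (A.card : ℝ) ^ (2 - ε) ≤ (3 * (B.card : ℝ)) ^ (2 - ε) := by
    apply Real.rpow_le_rpow (Nat.cast_nonneg _) _ (by linarith)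
    exact_mod_cast hcard
  have h2 : (3 * (B.card : ℝ)) ^ (2 - ε) = 3 ^ (2 - ε) * (B.card : ℝ) ^ (2 - ε) :=
    Real.mul_rpow (by norm_num) hBR.le
  have h3 : (3 : ℝ) ^ (2 - ε) ≤ 9 := by
    have : (3 : ℝ) ^ (2 - ε) ≤ 3 ^ (2 : ℝ) :=
      Real.rpow_le_rpow_of_exponent_le (by norm_num) (by linarith)
    refine this.trans ?_
    norm_num
  have h4 : 0 ≤ (B.card : ℝ) ^ (2 - ε) := Real.rpow_nonneg hBR.le _
  calc (1 / 9 : ℝ) * (A.card : ℝ) ^ (2 - ε) ≤ 1 / 9 * (3 ^ (2 - ε) * (B.card : ℝ) ^ (2 - ε)) := by
        rw [← h2]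
        exact mul_le_mul_of_nonneg_left h1 (by norm_num)
    _ ≤ 1 / 9 * (9 * (B.card : ℝ) ^ (2 - ε)) := by
        apply mul_le_mul_of_nonneg_left _ (by norm_num)
        exact mul_le_mul_of_nonneg_right h3 h4
    _ = _ := by ring

/-- The sum-product conjecture holds for sets of integers with few prime factors. -/
theorem few_primes : ∀ ε : ℝ, 0 < ε → ∃ c : ℝ, 0 < c ∧ ∃ C : ℝ, 0 < C ∧
    ∀ A : Finset ℤ, A.Nonempty →
      (∀ a ∈ A, a ≠ 0 → (a.natAbs.primeFactors.card : ℝ) * Real.log (Real.log A.card) ≤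
        c * Real.log A.card) →
      C * (A.card : ℝ) ^ (2 - ε) ≤ ((max (A + A).card (A * A).card : ℕ) : ℝ) := by
  intro ε₀ hε₀
  -- reduce to exponents at most one
  obtain ⟨ε, hεdef⟩ : ∃ ε, ε = min ε₀ 1 := ⟨_, rfl⟩
  have hε : 0 < ε := by rw [hεdef]; exact lt_min hε₀ one_pos
  have hε1 : ε ≤ 1 := by rw [hεdef]; exact min_le_right _ _
  have hεle : ε ≤ ε₀ := by rw [hεdef]; exact min_le_left _ _
  set N : ℝ := 9 * Real.exp (640000 / ε ^ 4) with hN
  have hNpos : 0 < N := by positivity
  refine ⟨ε ^ 2 / 800, by positivity, min (1 / 9) (1 / N ^ 2), by positivity, ?_⟩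
  intro A hA hω
  have hA1 : 1 ≤ A.card := Finset.card_pos.mpr hA
  have hA1R : (1 : ℝ) ≤ A.card := by exact_mod_cast hA1
  have hexp : (A.card : ℝ) ^ (2 - ε₀) ≤ (A.card : ℝ) ^ (2 - ε) :=
    Real.rpow_le_rpow_of_exponent_le hA1R (by linarith)
  have hmaxge : (1 : ℝ) ≤ ((max (A + A).card (A * A).card : ℕ) : ℝ) := by
    have : 1 ≤ max (A + A).card (A * A).card := by
      refine le_max_of_le_left ?_
      exact Finset.card_pos.mpr (hA.add hA)
    exact_mod_cast this
  have hpos : 0 ≤ (A.card : ℝ) ^ (2 - ε₀) := Real.rpow_nonneg (Nat.cast_nonneg _) _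
  by_cases hsmall : (A.card : ℝ) ≤ N
  · -- small sets
    have h1 : (A.card : ℝ) ^ (2 - ε₀) ≤ (A.card : ℝ) ^ (2 : ℝ) :=
      Real.rpow_le_rpow_of_exponent_le hA1R (by linarith)
    have h2 : (A.card : ℝ) ^ (2 : ℝ) ≤ N ^ 2 := by
      rw [Real.rpow_two]
      exact pow_le_pow_left₀ (Nat.cast_nonneg _) hsmall 2
    calc min (1 / 9) (1 / N ^ 2) * (A.card : ℝ) ^ (2 - ε₀)
        ≤ 1 / N ^ 2 * N ^ 2 := mul_le_mul (min_le_right _ _) (h1.trans h2) hpos (by positivity)
      _ = 1 := by field_simp
      _ ≤ _ := hmaxge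
  · push Not at hsmall
    have hexp1 : 1 ≤ Real.exp (640000 / ε ^ 4) := Real.one_le_exp (by positivity)
    have h9R : (9 : ℝ) < A.card := by
      refine lt_of_le_of_lt ?_ hsmall
      rw [hN]; linarith
    have h9 : 9 < A.card := by exact_mod_cast h9R
    have key : (1 / 9 : ℝ) * (A.card : ℝ) ^ (2 - ε) ≤ ((max (A + A).card (A * A).card : ℕ) : ℝ) := by
      -- positive and negative parts
      set Ap := A.filter (fun a => 0 < a) with hAp
      set An := A.filter (fun a => a < 0) with hAn
      have hsplit : A.card ≤ Ap.card + An.card + 1 := by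
        have hsub : A ⊆ (Ap ∪ An) ∪ {0} := by
          intro a ha
          rcases lt_trichotomy a 0 with h | h | h
          · simp [hAn, ha, h]
          · simp [h]
          · simp [hAp, ha, h]
        calc A.card ≤ _ := Finset.card_le_card hsub
          _ ≤ _ := Finset.card_union_le _ _
          _ ≤ _ := by
            rw [Finset.card_singleton]
            exact Nat.add_le_add_right (Finset.card_union_le _ _) 1
      have hlogB : ∀ B : ℕ, A.card ≤ 3 * B → 640000 / ε ^ 4 ≤ Real.log B := by
        intro B hB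
        have hBR : (A.card : ℝ) ≤ 3 * B := by exact_mod_cast hB
        have hBpos : (0 : ℝ) < B := by linarith
        rw [Real.le_log_iff_exp_le hBpos]
        have : 9 * Real.exp (640000 / ε ^ 4) < 3 * B := lt_of_lt_of_le hsmall hBR
        linarith [Real.exp_pos (640000 / ε ^ 4)]
      rcases le_total An.card Ap.card with h | h
      · -- positive part
        have hc : (Ap.image Int.natAbs).card = Ap.card := by
          apply Finset.card_image_of_injOn
          intro a ha b hb hab
          have ha' := (Finset.mem_filter.mp ha).2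
          have hb' := (Finset.mem_filter.mp hb).2
          omega
        have h3 : A.card ≤ 3 * (Ap.image Int.natAbs).card := by rw [hc]; omega
        apply transfer hε hε1 A (Ap.image Int.natAbs) 1 (Or.inl rfl) _ _ h3 h9.le
          (hlogB _ h3) hω
        · intro b hb
          obtain ⟨a, ha, rfl⟩ := Finset.mem_image.mp hb
          have := (Finset.mem_filter.mp ha).2
          omega
        · intro b hb
          obtain ⟨a, ha, rfl⟩ := Finset.mem_image.mp hb
          obtain ⟨h1, h2⟩ := Finset.mem_filter.mp ha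
          have : (1 : ℤ) * (a.natAbs : ℤ) = a := by omega
          rw [this]; exact h1
      · -- negative part
        have hc : (An.image Int.natAbs).card = An.card := by
          apply Finset.card_image_of_injOn
          intro a ha b hb hab
          have ha' := (Finset.mem_filter.mp ha).2
          have hb' := (Finset.mem_filter.mp hb).2
          omega
        have h3 : A.card ≤ 3 * (An.image Int.natAbs).card := by rw [hc]; omega
        apply transfer hε hε1 A (An.image Int.natAbs) (-1) (Or.inr rfl) _ _ h3 h9.le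
          (hlogB _ h3) hω
        · intro b hb
          obtain ⟨a, ha, rfl⟩ := Finset.mem_image.mp hb
          have := (Finset.mem_filter.mp ha).2
          omega
        · intro b hb
          obtain ⟨a, ha, rfl⟩ := Finset.mem_image.mp hb
          obtain ⟨h1, h2⟩ := Finset.mem_filter.mp ha
          have : (-1 : ℤ) * (a.natAbs : ℤ) = a := by omega
          rw [this]; exact h1
    calc min (1 / 9) (1 / N ^ 2) * (A.card : ℝ) ^ (2 - ε₀)
        ≤ 1 / 9 * (A.card : ℝ) ^ (2 - ε) :=
          mul_le_mul (min_le_left _ _) hexp hpos (by norm_num)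
      _ ≤ _ := key

end Pool.Agent.Helper20.SP
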